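import Pool.Agent.Helper34.BI5.VK7

/-!
# `StDRIFT` from the crossing lemma `StCRL`
-/

set_option autoImplicit false

open scoped Manifold ContDiff Topology ComplexConjugate
open Set Pool.Agent.Helper65.Barb Pool.Agent.Helper18.BI
open Pool.Agent.Helper70.BI (I4 IsW)
open Pool.Agent.Helper27.H (ArcD)
open Pool.Agent.Helper18.BI.H
open Pool.Agent.Helper18.BI.R
open Pool.Agent.Helper18.BI.S5

namespace Pool.Agent.Helper34.S5

/-- a path in the complement as a function -/
noncomputable def pf {K : Set R4} {x y : Off K} (w : Path x y) (u : ℝ) : R4 := (w.extend u : Off K)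

section
variable {K : Set R4}

theorem pf_cont {x y : Off K} (w : Path x y) : Continuous (pf w) :=
  continuous_subtype_val.comp w.continuous_extend

theorem pf_off {x y : Off K} (w : Path x y) (u : ℝ) : pf w u ∉ K := (w.extend u : Off K).2

theorem pf_coe {x y : Off K} (w : Path x y) (t : unitInterval) : pf w (t : ℝ) = w t := by
  show ((w (projIcc 0 1 zero_le_one (t : ℝ)) : Off K) : R4) = w t
  rw [projIcc_val]

theorem pf_zero {x y : Off K} (w : Path x y) : pf w 0 = x := by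
  have := pf_coe w 0
  rw [w.source] at this
  exact this

theorem pf_one {x y : Off K} (w : Path x y) : pf w 1 = y := by
  have := pf_coe w 1
  rw [w.target] at this
  exact this

theorem pf_trans {x y z : Off K} (w : Path x y) (w' : Path y z) {u : ℝ}
    (hu : u ∈ Icc (0 : ℝ) 1) : pf (w.trans w') u = pcat (pf w) (pf w') u := by
  have h1 : pf (w.trans w') u = (w.trans w') ⟨u, hu⟩ := pf_coe (w.trans w') ⟨u, hu⟩
  rw [h1, Path.trans_apply]
  unfold pcat
  by_cases h2 : u ≤ 1 / 2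
  · rw [dif_pos h2, if_pos h2]
    exact (pf_coe w ⟨2 * u, _⟩).symm
  · rw [dif_neg h2, if_neg h2]
    exact (pf_coe w' ⟨2 * u - 1, _⟩).symm

end

section
variable {F : R4 → R4}

/-- the base point -/
theorem bp_off (hF : EmbOn I4 F SP) : bp F ∉ F '' sph 1 := by
  rintro ⟨p, hp, h⟩
  have hb : bar (73 / 100) ∈ SP :=
    Or.inr ⟨rfl, by show (1 / 5 : ℝ) ≤ 73 / 100; norm_num, by show (73 / 100 : ℝ) ≤ 4 / 5; norm_num,
      rfl⟩
  have h1 := hF.2 (sph1_subset_SP hp) hb h
  rw [h1] at hp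
  exact bar_not_sph1 (by norm_num) hp

variable (hHCL : StHCL) (hT2 : StT2) (hCI : StCI) (hEX : StEX) (hF : EmbOn I4 F SP)
include hHCL hT2 hCI hEX hF

/-- homotopic tracks -/
theorem dr_tracks {x y : Off (F '' sph 1)} (hx : (x : R4) = bp F) {w w' : Path x y}
    (hw : cl w = cl w') {h h' : ℝ × R3 → R4} (hh : FH F h (pf w)) (hh' : FH F h' (pf w'))
    (h1 : ∀ m ∈ S2, h (1, m) = h' (1, m)) : DR F (fun m => h (0, m)) (fun m => h' (0, m)) := by
  -- chain: h 0, fill (h 0) const, fill (h 1) w, fill (h' 1) w', fill (h' 0) const, h' 0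
  have hbp := bp_off hF
  have key : ∀ (v : Path x y) (k : ℝ × R3 → R4), FH F k (pf v) →
      Bs F (fill (fun m => k (1, m)) (pf v)) ∧
      DR F (fun m => k (0, m)) (fill (fun m => k (1, m)) (pf v)) := by
    intro v k hk
    have hv0 : pf v 0 = bp F := by rw [pf_zero, hx]
    have hbs := hk.bs hv0
    have b1 : BH F (fill (fun m => k (0, m)) (fun _ => bp F)) (fun m => k (0, m)) :=
      bh_fill_const hbs.cont hbs.base hbs.off
    have b2 := bh_fill_track hk (pf_cont v).continuousOn hv0 fun t _ => pf_off v t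
    have hbs1 : Bs F (fill (fun m => k (0, m)) (fun _ => bp F)) := by
      obtain ⟨H, hH, e0, -⟩ := b1
      have := hH.bs rfl
      exact ⟨this.cont.congr fun m hm => (e0 m hm).symm, fun m hm => by
        rw [← e0 m hm]; exact this.off m hm, by rw [← e0 _ base_mem]; exact this.base⟩
    have hbs2 : Bs F (fill (fun m => k (1, m)) (pf v)) := by
      obtain ⟨H, hH, -, e1⟩ := b2
      have hc : ContinuousOn (fun m => H (1, m)) S2 :=
        hH.cont.comp (Continuous.continuousOn (by fun_prop)) fun m hm =>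
          ⟨⟨zero_le_one, le_rfl⟩, hm⟩
      exact ⟨hc.congr fun m hm => (e1 m hm).symm, fun m hm => by
        rw [← e1 m hm]; exact hH.off 1 ⟨zero_le_one, le_rfl⟩ m hm, by
        rw [← e1 _ base_mem]; exact hH.track 1 ⟨zero_le_one, le_rfl⟩⟩
    exact ⟨hbs2, dr_trans hF hHCL hT2 hCI hEX hbs1
      (dr_symm hHCL hT2 hCI (dr_of_bh hF hHCL b1)) (dr_of_bh hF hHCL b2)⟩
  obtain ⟨b1, d1⟩ := key w h hh
  obtain ⟨b2, d2⟩ := key w' h' hh'
  have hk1 : ContinuousOn (fun m => h (1, m)) S2 :=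
    hh.cont.comp (Continuous.continuousOn (by fun_prop)) fun m hm => ⟨⟨zero_le_one, le_rfl⟩, hm⟩
  obtain ⟨P⟩ := Path.Homotopic.Quotient.eq.1 hw
  let Pf : ℝ × ℝ → R4 := fun z =>
    ((P (projIcc 0 1 zero_le_one z.1, projIcc 0 1 zero_le_one z.2) : Off (F '' sph 1)) : R4)
  have hPc : Continuous Pf := by
    refine continuous_subtype_val.comp (P.continuous.comp ?_)
    exact (continuous_projIcc.comp continuous_fst).prodMk (continuous_projIcc.comp continuous_snd)
  have e0 : ∀ t, Pf (0, t) = pf w t := by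
    intro t
    show ((P (projIcc 0 1 zero_le_one (0 : ℝ), projIcc 0 1 zero_le_one t) : Off (F '' sph 1)) : R4)
      = _
    rw [projIcc_left]
    exact congrArg Subtype.val (P.apply_zero _)
  have e1 : ∀ t, Pf (1, t) = pf w' t := by
    intro t
    show ((P (projIcc 0 1 zero_le_one (1 : ℝ), projIcc 0 1 zero_le_one t) : Off (F '' sph 1)) : R4)
      = _
    rw [projIcc_right]
    exact congrArg Subtype.val (P.apply_one _)
  have b3 : BH F (fill (fun m => h (1, m)) (fun t => Pf (0, t)))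
      (fill (fun m => h (1, m)) (fun t => Pf (1, t))) := by
    refine bh_fill_htpy hk1 (hh.off 1 ⟨zero_le_one, le_rfl⟩) hPc.continuousOn ?_ ?_ ?_
    · intro u _ t _
      exact (P (projIcc 0 1 zero_le_one u, projIcc 0 1 zero_le_one t) : Off (F '' sph 1)).2
    · intro u _
      show ((P (projIcc 0 1 zero_le_one u, projIcc 0 1 zero_le_one (0 : ℝ)) : Off (F '' sph 1)) : R4)
        = _
      rw [projIcc_left, ← hx]
      exact congrArg Subtype.val (P.source _)
    · intro u _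
      show ((P (projIcc 0 1 zero_le_one u, projIcc 0 1 zero_le_one (1 : ℝ)) : Off (F '' sph 1)) : R4)
        = _
      rw [projIcc_right, hh.track 1 ⟨zero_le_one, le_rfl⟩, pf_one]
      exact congrArg Subtype.val (P.target _)
  have e0' : (fun t => Pf (0, t)) = pf w := funext e0
  have e1' : (fun t => Pf (1, t)) = pf w' := funext e1
  rw [e0', e1'] at b3
  have b4 : BH F (fill (fun m => h (1, m)) (pf w)) (fill (fun m => h' (1, m)) (pf w')) := by
    obtain ⟨H, hH, a0, a1⟩ := b3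
    exact ⟨H, hH, a0, fun m hm => by
      rw [a1 m hm]
      exact fill_congr h1 (fun _ _ => rfl) hm⟩
  have T := fun {f g f' : R3 → R4} => dr_trans (f := f) (g := g) (f' := f') hF hHCL hT2 hCI hEX
  exact T b1 d1 (T b2 (dr_of_bh hF hHCL b4) (dr_symm hHCL hT2 hCI d2))

omit hHCL hT2 hCI hEX in
/-- the relation of paths -/
def RR (F : R4 → R4) (x : Off (F '' sph 1)) (y : Off (F '' sph 1))
    (g g' : Hom (F '' sph 1) x y) : Prop :=
  ∀ (w w' : Path x y) (h h' : ℝ × R3 → R4), cl w = g → cl w' = g' → FH F h (pf w) →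
    FH F h' (pf w') → (∀ m ∈ S2, h (1, m) = h' (1, m)) →
    DR F (fun m => h (0, m)) (fun m => h' (0, m))

omit hHCL hT2 hCI hEX hF in
theorem exists_transport {x y : Off (F '' sph 1)} (w : Path x y) {k : R3 → R4}
    (hk : ContinuousOn k S2) (hkK : ∀ m ∈ S2, k m ∉ F '' sph 1) (hy : k (1, 0) = y) :
    ∃ h : ℝ × R3 → R4, FH F h (pf w) ∧ ∀ m ∈ S2, h (1, m) = k m := by
  obtain ⟨h, h1, h2, -⟩ := transport (F := F) (k := k) (w := pf w) hk (pf_cont w).continuousOn
    (by rw [pf_one, hy]) hkK fun t _ => pf_off w t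
  exact ⟨h, h1, h2⟩

omit hHCL hT2 hCI hEX hF in
theorem FH.one_cont {h : ℝ × R3 → R4} {w : ℝ → R4} (hh : FH F h w) (u : ℝ)
    (hu : u ∈ Icc (0 : ℝ) 1) : ContinuousOn (fun m => h (u, m)) S2 :=
  hh.cont.comp (Continuous.continuousOn (by fun_prop)) fun _ hm => ⟨hu, hm⟩

theorem relP_RR {x : Off (F '' sph 1)} (hx : (x : R4) = bp F) : RelP (F '' sph 1) x (RR F x) where
  refl y g := by
    intro w w' h h' hw hw' hh hh' h1
    exact dr_tracks hHCL hT2 hCI hEX hF hx (hw.trans hw'.symm) hh hh' h1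
  symm y g g' H := by
    intro w w' h h' hw hw' hh hh' h1
    exact dr_symm hHCL hT2 hCI (H w' w h' h hw' hw hh' hh fun m hm => (h1 m hm).symm)
  trans y g g' g'' H H' := by
    intro w w'' h h'' hw hw'' hh hh'' h1
    obtain ⟨w', hw'⟩ := Path.Homotopic.Quotient.mk_surjective g'
    obtain ⟨h', hh', h1'⟩ := exists_transport w' (hh.one_cont 1 ⟨zero_le_one, le_rfl⟩)
      (hh.off 1 ⟨zero_le_one, le_rfl⟩) (by rw [hh.track 1 ⟨zero_le_one, le_rfl⟩, pf_one])
    exact dr_trans hF hHCL hT2 hCI hEX (hh'.bs (by rw [pf_zero, hx]))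
      (H w w' h h' hw hw' hh hh' fun m hm => (h1' m hm).symm)
      (H' w' w'' h' h'' hw' hw'' hh' hh'' fun m hm => (h1' m hm).trans (h1 m hm))
  comp y y' g g' b H := by
    intro w w' h h' hw hw' hh hh' h1
    obtain ⟨β, hβ⟩ := Path.Homotopic.Quotient.mk_surjective b
    obtain ⟨v, hv⟩ := Path.Homotopic.Quotient.mk_surjective g
    obtain ⟨v', hv'⟩ := Path.Homotopic.Quotient.mk_surjective g'
    obtain ⟨k, hk, hk1⟩ := exists_transport β (hh.one_cont 1 ⟨zero_le_one, le_rfl⟩)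
      (hh.off 1 ⟨zero_le_one, le_rfl⟩) (by rw [hh.track 1 ⟨zero_le_one, le_rfl⟩, pf_one])
    have hk0 := hk.track 0 ⟨le_rfl, zero_le_one⟩
    rw [pf_zero] at hk0
    obtain ⟨l, hl, hl1⟩ := exists_transport v (hk.one_cont 0 ⟨le_rfl, zero_le_one⟩)
      (hk.off 0 ⟨le_rfl, zero_le_one⟩) hk0
    obtain ⟨l', hl', hl1'⟩ := exists_transport v' (hk.one_cont 0 ⟨le_rfl, zero_le_one⟩)
      (hk.off 0 ⟨le_rfl, zero_le_one⟩) hk0
    have d0 := H v v' l l' hv hv' hl hl' fun m hm => (hl1 m hm).trans (hl1' m hm).symm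
    have c1 : FH F (hcat l k) (pf (v.trans β)) :=
      (fh_cat hl hk hl1).congr (fun _ _ _ _ => rfl) fun u hu => pf_trans v β hu
    have c1' : FH F (hcat l' k) (pf (v'.trans β)) :=
      (fh_cat hl' hk hl1').congr (fun _ _ _ _ => rfl) fun u hu => pf_trans v' β hu
    have e : cl w = cl (v.trans β) := by
      rw [hw, ← hv, ← hβ]
      rfl
    have e' : cl (v'.trans β) = cl w' := by
      rw [hw', ← hv', ← hβ]
      rfl
    have d1 := dr_tracks hHCL hT2 hCI hEX hF hx e hh c1 fun m hm => by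
      rw [hcat_one]
      exact (hk1 m hm).symm
    have d2 := dr_tracks hHCL hT2 hCI hEX hF hx e' c1' hh' fun m hm => by
      rw [hcat_one]
      exact (hk1 m hm).trans (h1 m hm)
    have z1 : (fun m => hcat l k (0, m)) = fun m => l (0, m) := funext fun m => hcat_zero l k m
    have z2 : (fun m => hcat l' k (0, m)) = fun m => l' (0, m) := funext fun m => hcat_zero l' k m
    rw [z1] at d1
    rw [z2] at d2
    have T := fun {f g f' : R3 → R4} => dr_trans (f := f) (g := g) (f' := f') hF hHCL hT2 hCI hEX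
    exact T (hl.bs (by rw [pf_zero, hx])) d1 (T (hl'.bs (by rw [pf_zero, hx])) d0 d2)

end

/-- **DRIFT.** -/
theorem m_DRIFT (hHCL : StHCL) (hT2 : StT2) (hCI : StCI) (hEX : StEX) (hCRL : StCRL) :
    StDRIFT := by
  intro F h hF hh h0 h1 hoff
  obtain ⟨η, hη, T, hκ, hP, hQ⟩ := exists_tub I4 hF
  obtain ⟨r, hr, v, hv, hC⟩ := hCRL F hF η hη
  have hrη : Real.log r < Real.log η := Real.log_lt_log hr.1 hr.2
  have hz : (((Real.log r : ℝ) : ℂ), v) ∈ {ℓ : ℂ | ℓ.re < T.κ} ×ˢ T.P := by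
    rw [hκ, hP]
    exact ⟨by show ((Real.log r : ℝ) : ℂ).re < Real.log η; rw [Complex.ofReal_re]; exact hrη, hv⟩
  have hexp : ∀ θ : ℝ, Complex.exp (((Real.log r : ℝ) : ℂ) + (θ : ℂ) * Complex.I)
      = r * Complex.exp ((θ : ℂ) * Complex.I) := by
    intro θ
    rw [Complex.exp_add, ← Complex.ofReal_exp, Real.exp_log hr.1]
  -- points and half circles
  have hcirc_eq : ∀ σ u : ℝ, hcirc F r v σ u
      = T.Q (((Real.log r : ℝ) : ℂ) + ((σ * Real.pi * u : ℝ) : ℂ) * Complex.I, v) := by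
    intro σ u
    rw [hQ, hexp]
    rfl
  have hzθ : ∀ θ : ℝ, ((((Real.log r : ℝ) : ℂ) + (θ : ℂ) * Complex.I, v) : ℂ × R3) ∈
      {ℓ : ℂ | ℓ.re < T.κ} ×ˢ T.P := by
    intro θ
    refine ⟨?_, hz.2⟩
    show (((Real.log r : ℝ) : ℂ) + (θ : ℂ) * Complex.I).re < T.κ
    rw [Complex.add_re, Complex.ofReal_re, Complex.mul_re, Complex.ofReal_re, Complex.I_re,
      Complex.ofReal_im, Complex.I_im, hκ]
    linarith
  have hcoff : ∀ σ u : ℝ, hcirc F r v σ u ∉ F '' sph 1 := by
    intro σ u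
    rw [hcirc_eq]
    exact T.off _ (hzθ _)
  have hccont : ∀ σ : ℝ, Continuous (hcirc F r v σ) := by
    intro σ
    have h2 : hcirc F r v σ = fun u =>
        T.Q (((Real.log r : ℝ) : ℂ) + ((σ * Real.pi * u : ℝ) : ℂ) * Complex.I, v) :=
      funext (hcirc_eq σ)
    rw [h2]
    refine T.contQ (by fun_prop) continuous_const (fun u => (hzθ _).1) fun _ => hz.2
  have hc0 : ∀ σ : ℝ, hcirc F r v σ 0 = F (Gc r v) := by
    intro σ
    unfold hcirc
    simp
  have hc1 : hcirc F r v (-1) 1 = hcirc F r v 1 1 := by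
    unfold hcirc
    have e1 : Complex.exp (((-1 * Real.pi * 1 : ℝ) : ℂ) * Complex.I) = -1 := by
      have : (((-1 * Real.pi * 1 : ℝ) : ℂ) * Complex.I) = -(Real.pi * Complex.I) := by
        push_cast
        ring
      rw [this, Complex.exp_neg, Complex.exp_pi_mul_I]
      norm_num
    have e2 : Complex.exp (((1 * Real.pi * 1 : ℝ) : ℂ) * Complex.I) = -1 := by
      have : (((1 * Real.pi * 1 : ℝ) : ℂ) * Complex.I) = Real.pi * Complex.I := by
        push_cast
        ring
      rw [this, Complex.exp_pi_mul_I]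
    rw [e1, e2]
  let y₁ : Off (F '' sph 1) := ⟨F (Gc r v), by rw [← hc0 1]; exact hcoff 1 0⟩
  let y₂ : Off (F '' sph 1) := ⟨hcirc F r v 1 1, hcoff 1 1⟩
  let k : Path y₁ y₂ :=
    { toFun := fun t => ⟨hcirc F r v 1 t, hcoff 1 t⟩
      continuous_toFun := ((hccont 1).comp continuous_subtype_val).subtype_mk _
      source' := Subtype.ext (hc0 1)
      target' := rfl }
  let k' : Path y₁ y₂ :=
    { toFun := fun t => ⟨hcirc F r v (-1) t, hcoff (-1) t⟩
      continuous_toFun := ((hccont (-1)).comp continuous_subtype_val).subtype_mk _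
      source' := Subtype.ext (hc0 (-1))
      target' := Subtype.ext hc1 }
  have hy₁ : T.Q (((Real.log r : ℝ) : ℂ), v) = y₁ := by
    rw [hQ]
    show F (Gc (Complex.exp ((Real.log r : ℝ) : ℂ)) v) = F (Gc r v)
    rw [← Complex.ofReal_exp, Real.exp_log hr.1]
  -- the meridian
  have hm : T.IsMer (((Real.log r : ℝ) : ℂ), v) 1 (k.trans k'.symm) := by
    intro t
    rw [Path.trans_apply]
    split_ifs with ht
    · show hcirc F r v 1 (2 * (t : ℝ)) = _
      rw [hcirc_eq]
      congr 2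
      show ((Real.log r : ℝ) : ℂ) + _ = ((Real.log r : ℝ) : ℂ) + _
      unfold tpi
      push_cast
      ring
    · show hcirc F r v (-1) (1 - (2 * (t : ℝ) - 1)) = _
      rw [hcirc_eq, ← T.per]
      congr 2
      show ((Real.log r : ℝ) : ℂ) + _ + _ = ((Real.log r : ℝ) : ℂ) + _
      unfold tpi
      push_cast
      ring
  -- the relation
  let x₀ : Off (F '' sph 1) := ⟨bp F, bp_off hF⟩
  have hR := relP_RR hHCL hT2 hCI hEX hF (x := x₀) rfl
  have hkk : ∀ g : Hom (F '' sph 1) x₀ y₁, RR F x₀ y₂ (g.trans (cl k)) (g.trans (cl k')) := by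
    intro g
    obtain ⟨w, rfl⟩ := Path.Homotopic.Quotient.mk_surjective g
    intro v₁ v₂ l l' hv₁ hv₂ hl hl' hll
    have ho := hl.track 1 ⟨zero_le_one, le_rfl⟩
    rw [pf_one] at ho
    obtain ⟨a, ha, ha1⟩ := exists_transport (w.trans k) (hl.one_cont 1 ⟨zero_le_one, le_rfl⟩)
      (hl.off 1 ⟨zero_le_one, le_rfl⟩) ho
    obtain ⟨a', ha', ha1'⟩ := exists_transport (w.trans k') (hl.one_cont 1 ⟨zero_le_one, le_rfl⟩)
      (hl.off 1 ⟨zero_le_one, le_rfl⟩) ho
    have d1 := dr_tracks hHCL hT2 hCI hEX hF (x := x₀) rfl (w := v₁) (w' := w.trans k) hv₁ hl ha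
      fun m hm => (ha1 m hm).symm
    have d2 := dr_tracks hHCL hT2 hCI hEX hF (x := x₀) rfl (w := w.trans k') (w' := v₂) hv₂.symm
      ha' hl' fun m hm => (ha1' m hm).trans (hll m hm)
    have hpk : ∀ u ∈ Icc (0 : ℝ) 1, pf k u = hcirc F r v 1 u := fun u hu => pf_coe k ⟨u, hu⟩
    have hpk' : ∀ u ∈ Icc (0 : ℝ) 1, pf k' u = hcirc F r v (-1) u := fun u hu => pf_coe k' ⟨u, hu⟩
    have c1 : FH F a (pcat (pf w) (hcirc F r v 1)) := by
      refine ha.congr (fun _ _ _ _ => rfl) fun u hu => ?_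
      rw [pf_trans w k hu]
      unfold pcat
      split_ifs with h2
      · rfl
      · rw [not_le] at h2
        exact (hpk _ ⟨by linarith, by linarith [hu.2]⟩).symm
    have c2 : FH F a' (pcat (pf w) (hcirc F r v (-1))) := by
      refine ha'.congr (fun _ _ _ _ => rfl) fun u hu => ?_
      rw [pf_trans w k' hu]
      unfold pcat
      split_ifs with h2
      · rfl
      · rw [not_le] at h2
        exact (hpk' _ ⟨by linarith, by linarith [hu.2]⟩).symm
    have d3 := hC (pf w) a a' (pf_zero w) c1 c2 fun m hm => (ha1 m hm).trans (ha1' m hm).symm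
    have T := fun {f g f' : R3 → R4} => dr_trans (f := f) (g := g) (f' := f') hF hHCL hT2 hCI hEX
    exact T (ha.bs (pf_zero _)) d1 (T (ha'.bs (pf_zero _)) d3 d2)
  have hinv : ∀ g : Hom (F '' sph 1) x₀ y₁, RR F x₀ y₁ (g.trans (cl (k.trans k'.symm))) g := by
    intro g
    have h2 := hR.comp _ _ _ _ (cl k').symm (hkk g)
    simp only [Path.Homotopic.Quotient.trans_assoc, Path.Homotopic.Quotient.trans_symm,
      Path.Homotopic.Quotient.trans_refl] at h2
    exact h2
  have hall := vk T (isCompact_K hF).isClosed hR hz hy₁ hm hinv x₀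
  -- the track
  have htr : ContinuousOn (fun u : ℝ => h (u, (1, 0))) (Icc 0 1) :=
    hh.comp (Continuous.continuousOn (by fun_prop)) fun u hu => ⟨hu, base_mem⟩
  let γ : Path x₀ x₀ :=
    { toFun := fun t => ⟨h ((t : ℝ), (1, 0)), hoff t t.2 _ base_mem⟩
      continuous_toFun := (htr.comp_continuous continuous_subtype_val fun t => t.2).subtype_mk _
      source' := Subtype.ext h0
      target' := Subtype.ext h1 }
  have f1 : FH F h (pf γ) := ⟨hh, hoff, fun u hu => (pf_coe γ ⟨u, hu⟩).symm⟩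
  have f2 : FH F (fun z => h (1, z.2)) (pf (Path.refl x₀)) := by
    refine ⟨?_, fun _ _ => hoff 1 ⟨zero_le_one, le_rfl⟩, fun u _ => ?_⟩
    · exact hh.comp (Continuous.continuousOn (by fun_prop)) fun z hz =>
        ⟨⟨zero_le_one, le_rfl⟩, hz.2⟩
    · exact h1
  exact hall (cl γ) (cl (Path.refl x₀)) γ (Path.refl x₀) h (fun z => h (1, z.2)) rfl rfl f1 f2
    fun _ _ => rfl

end Pool.Agent.Helper34.S5
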