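import Mathlib.Analysis.Complex.Tietze
import Pool.Agent.Helper34.BI5.VK8

/-!
# General position of a two-dimensional family of points off the bar
-/

set_option autoImplicit false

open scoped Manifold ContDiff Topology ComplexConjugate
open Set Pool.Agent.Helper65.Barb Pool.Agent.Helper18.BI
open Pool.Agent.Helper70.BI (I4 IsW)
open Pool.Agent.Helper18.BI.H
open Pool.Agent.Helper18.BI.R

namespace Pool.Agent.Helper34.S5

theorem neck_subset_SP : neck ⊆ SP := fun _ h => Or.inr h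

theorem sphneck_subset_SP : sph 1 ∪ neck ⊆ SP := by
  rintro p (h | h)
  · exact sph1_subset_SP h
  · exact neck_subset_SP h

theorem isClosed_neck : IsClosed neck := by
  refine (isClosed_eq continuous_fst continuous_const).inter ?_
  refine (isClosed_le continuous_const (continuous_fst.comp continuous_snd)).inter ?_
  exact (isClosed_le (continuous_fst.comp continuous_snd) continuous_const).inter
    (isClosed_eq (continuous_snd.comp continuous_snd) continuous_const)

theorem isClosed_sph1 : IsClosed (sph 1) :=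
  (isClosed_eq continuous_fst continuous_const).inter
      (isClosed_eq (continuous_rsq 1) continuous_const)

theorem isCompact_N {F : R4 → R4} (hF : EmbOn I4 F SP) : IsCompact (F '' (sph 1 ∪ neck)) := by
  have h1 : IsCompact (sph 1 ∪ neck) :=
    X2.isCompact_SP.of_isClosed_subset (isClosed_sph1.union isClosed_neck) sphneck_subset_SP
  refine h1.image_of_continuousOn fun p hp => ?_
  exact ((hF.1 p (sphneck_subset_SP hp)).contMDiffAt.continuousAt).continuousWithinAt

theorem neck_bar {p : R4} (hp : p ∈ neck) : ∃ t ∈ Icc (1 / 5 : ℝ) (4 / 5), p = bar t :=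
  ⟨p.2.1, ⟨hp.2.1, hp.2.2.1⟩, Prod.ext hp.1 (Prod.ext rfl hp.2.2.2)⟩

theorem bar_neck {t : ℝ} (ht : t ∈ Icc (1 / 5 : ℝ) (4 / 5)) : bar t ∈ neck :=
  ⟨rfl, ht.1, ht.2, rfl⟩

section
variable {F : R4 → R4} (hF : EmbOn I4 F SP) {E : Type} [NormedAddCommGroup E] [NormedSpace ℝ E]
  [FiniteDimensional ℝ E]

/-- a smooth approximation -/
theorem exists_smooth_approx {X : Set E} (hX : IsClosed X) {f : E → R4} (hf : ContinuousOn f X)
    {κ : ℝ} (hκ : 0 < κ) : ∃ g : E → R4, ContDiff ℝ ∞ g ∧ ∀ x ∈ X, dist (g x) (f x) < κ := by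
  obtain ⟨f', hf'⟩ := ContinuousMap.exists_restrict_eq hX
    (⟨X.domRestrict f, continuousOn_iff_continuous_domRestrict.1 hf⟩ : C(X, R4))
  obtain ⟨g, hg, hgf, -⟩ := f'.continuous.exists_contDiff_approx (n := ⊤) continuous_const
    (fun _ => hκ)
  refine ⟨g, hg, fun x hx => ?_⟩
  have h1 : f' x = f x := by
    have := congrArg (fun φ : C(X, R4) => φ ⟨x, hx⟩) hf'
    exact this
  rw [← h1]
  exact hgf x

include hF in
/-- general position off the bar -/
theorem exists_off_neck {X : Set E} (hX : IsCompact X) {p : ℝ × ℝ → E} (hp : ContDiff ℝ ∞ p)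
    (hXp : X ⊆ range p) {f : E → R4} (hf : ContinuousOn f X) {κ : ℝ} (hκ : 0 < κ) :
    ∃ g : E → R4, ContinuousOn g X ∧ (∀ x ∈ X, dist (g x) (f x) ≤ κ) ∧
      ∀ x ∈ X, g x ∉ F '' neck := by
  obtain ⟨g, hg, hgf⟩ := exists_smooth_approx hX.isClosed hf (half_pos hκ)
  let s : Set (ℝ × ℝ × ℝ) := Icc (1 / 5 : ℝ) (4 / 5) ×ˢ univ
  let φ : ℝ × ℝ × ℝ → R4 := fun z => F (bar z.1) - g (p z.2)
  have hφ : ContDiffOn ℝ 1 φ s := by
    intro z hz
    have h1 : ContDiffAt ℝ 1 F (bar z.1) :=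
      ((hF.1 _ (neck_subset_SP (bar_neck hz.1))).contMDiffAt.contDiffAt).of_le (by simp)
    have h2 : ContDiffAt ℝ 1 (fun z : ℝ × ℝ × ℝ => bar z.1) z := by
      unfold bar
      fun_prop
    have h3 : ContDiff ℝ 1 fun z : ℝ × ℝ × ℝ => g (p z.2) :=
      ((hg.comp hp).comp contDiff_snd).of_le (by simp)
    exact ((h1.comp z h2).sub h3.contDiffAt).contDiffWithinAt
  have hdim : dimH s < Module.finrank ℝ R4 := by
    have h1 : dimH s ≤ dimH (univ : Set (ℝ × ℝ × ℝ)) := dimH_mono (subset_univ _)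
    have h2 := Real.dimH_univ_eq_finrank (ℝ × ℝ × ℝ)
    rw [h2] at h1
    refine lt_of_le_of_lt h1 ?_
    have e1 : Module.finrank ℝ (ℝ × ℝ × ℝ) = 3 := by simp [Module.finrank_prod]
    have e2 : Module.finrank ℝ R4 = 4 := by
      simp [Module.finrank_prod, Complex.finrank_real_complex]
    rw [e1, e2]
    norm_num
  have hd := hφ.dense_compl_image_of_dimH_lt_finrank
    ((convex_Icc _ _).prod convex_univ) (subset_refl s) hdim
  obtain ⟨v, hv, hvκ⟩ := Metric.dense_iff.1 hd 0 (κ / 2) (half_pos hκ)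
  have hv1 : ‖v‖ < κ / 2 := by simpa using hv
  refine ⟨fun x => g x + v, (hg.continuous.add continuous_const).continuousOn, fun x hx => ?_,
    fun x hx => ?_⟩
  · have h1 := hgf x hx
    have h2 : dist (g x + v) (g x) = ‖v‖ := by rw [dist_eq_norm, add_sub_cancel_left]
    have h3 := dist_triangle (g x + v) (g x) (f x)
    linarith
  · rintro ⟨q, hq, h⟩
    obtain ⟨t, ht, rfl⟩ := neck_bar hq
    obtain ⟨z, rfl⟩ := hXp hx
    refine hvκ ⟨(t, z), ⟨ht, mem_univ _⟩, ?_⟩
    show F (bar t) - g (p z) = v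
    rw [h, add_sub_cancel_left]

include hF in
/-- **General position off the bar, relative to a subset.** -/
theorem exists_gp {X Y : Set E} (hX : IsCompact X) {p : ℝ × ℝ → E}
    (hp : ContDiff ℝ ∞ p) (hXp : X ⊆ range p) {f : E → R4} (hf : ContinuousOn f X)
    (hfK : ∀ x ∈ X, f x ∉ F '' sph 1) {ρ : ℝ} (hρ : 0 < ρ)
    (hY : ∀ y ∈ Y, ∀ z ∈ F '' (sph 1 ∪ neck), 2 * ρ ≤ dist (f y) z) :
    ∃ H : ℝ × E → R4, ContinuousOn H (Icc (0 : ℝ) 1 ×ˢ X) ∧ (∀ x ∈ X, H (0, x) = f x) ∧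
      (∀ y ∈ Y, ∀ u, H (u, y) = f y) ∧ (∀ u ∈ Icc (0 : ℝ) 1, ∀ x ∈ X, H (u, x) ∉ F '' sph 1) ∧
      ∀ x ∈ X, H (1, x) ∉ F '' (sph 1 ∪ neck) := by
  obtain ⟨κ₁, hm, hκ₁⟩ := ((margin hX hf (isCompact_K hF) hfK).and self_mem_nhdsWithin).exists
  have hκ₁ : 0 < κ₁ := hκ₁
  let N : Set R4 := F '' (sph 1 ∪ neck)
  have hNc : IsCompact N := isCompact_N hF
  have hNn : N.Nonempty := ⟨F (bar (1 / 5)), bar (1 / 5), Or.inr (bar_neck (by norm_num)), rfl⟩
  obtain ⟨g, hg, hgf, hgn⟩ := exists_off_neck hF hX hp hXp hf (κ := min κ₁ (ρ / 2))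
    (lt_min hκ₁ (half_pos hρ))
  let d : E → ℝ := fun x => Metric.infDist (f x) N
  have hd : ContinuousOn d X := (Metric.continuous_infDist_pt N).comp_continuousOn hf
  let lam : E → ℝ := fun x => max 0 (min 1 (2 - d x / ρ))
  have hlam : ContinuousOn lam X :=
    continuousOn_const.sup (continuousOn_const.inf (continuousOn_const.sub (hd.div_const ρ)))
  have hlam0 : ∀ x, 0 ≤ lam x := fun x => le_max_left _ _
  have hlam1 : ∀ x, lam x ≤ 1 := fun x => max_le zero_le_one (min_le_left _ _)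
  have hclose : ∀ u ∈ Icc (0 : ℝ) 1, ∀ x ∈ X,
      dist (f x) (f x + (u * lam x) • (g x - f x)) ≤ min κ₁ (ρ / 2) := by
    intro u hu x hx
    rw [dist_self_add_right, norm_smul, Real.norm_eq_abs, abs_of_nonneg
      (mul_nonneg hu.1 (hlam0 x)), ← dist_eq_norm]
    have h1 := hgf x hx
    have h2 : u * lam x ≤ 1 := mul_le_one₀ hu.2 (hlam0 x) (hlam1 x)
    calc u * lam x * dist (g x) (f x) ≤ 1 * dist (g x) (f x) :=
          mul_le_mul_of_nonneg_right h2 dist_nonneg
      _ ≤ _ := by rw [one_mul]; exact h1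
  have hoffK : ∀ u ∈ Icc (0 : ℝ) 1, ∀ x ∈ X, f x + (u * lam x) • (g x - f x) ∉ F '' sph 1 := by
    intro u hu x hx hK
    have h1 := hm x hx _ hK
    have h2 := (hclose u hu x hx).trans (min_le_left _ _)
    linarith
  refine ⟨fun z => f z.2 + (z.1 * lam z.2) • (g z.2 - f z.2), ?_, ?_, ?_, hoffK, ?_⟩
  · have h2 : ContinuousOn (fun z : ℝ × E => f z.2) (Icc (0 : ℝ) 1 ×ˢ X) :=
      hf.comp continuousOn_snd fun z hz => hz.2
    have h3 : ContinuousOn (fun z : ℝ × E => g z.2) (Icc (0 : ℝ) 1 ×ˢ X) :=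
      hg.comp continuousOn_snd fun z hz => hz.2
    have h4 : ContinuousOn (fun z : ℝ × E => lam z.2) (Icc (0 : ℝ) 1 ×ˢ X) :=
      hlam.comp continuousOn_snd fun z hz => hz.2
    exact h2.add ((continuousOn_fst.mul h4).smul (h3.sub h2))
  · intro x _
    show f x + ((0 : ℝ) * lam x) • (g x - f x) = f x
    rw [zero_mul, zero_smul, add_zero]
  · intro y hy u
    have h1 : 2 * ρ ≤ d y := (Metric.le_infDist hNn).2 fun z hz => hY y hy z hz
    have h2 : lam y = 0 := by
      have h3 : 2 - d y / ρ ≤ 0 := by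
        have : 2 ≤ d y / ρ := by rw [le_div_iff₀ hρ]; exact h1
        linarith
      exact max_eq_left ((min_le_right _ _).trans h3)
    show f y + (u * lam y) • (g y - f y) = f y
    rw [h2, mul_zero, zero_smul, add_zero]
  · intro x hx
    show f x + ((1 : ℝ) * lam x) • (g x - f x) ∉ F '' (sph 1 ∪ neck)
    by_cases h1 : d x ≤ ρ
    · have h2 : lam x = 1 := by
        have h3 : 1 ≤ 2 - d x / ρ := by
          have : d x / ρ ≤ 1 := by rw [div_le_one hρ]; exact h1
          linarith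
        have h4 : min 1 (2 - d x / ρ) = 1 := min_eq_left h3
        show max 0 (min 1 (2 - d x / ρ)) = 1
        rw [h4]
        exact max_eq_right zero_le_one
      have h5 := hoffK 1 ⟨zero_le_one, le_rfl⟩ x hx
      rw [h2, one_mul, one_smul, add_sub_cancel] at h5 ⊢
      rintro ⟨q, hq | hq, hqx⟩
      · exact h5 ⟨q, hq, hqx⟩
      · exact hgn x hx ⟨q, hq, hqx⟩
    · intro hK
      have h2 := (hclose 1 ⟨zero_le_one, le_rfl⟩ x hx).trans (min_le_right _ _)
      have h3 : d x ≤ dist (f x) (f x + ((1 : ℝ) * lam x) • (g x - f x)) :=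
        Metric.infDist_le_dist_of_mem hK
      linarith

end

end Pool.Agent.Helper34.S5
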