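import Pool.Agent.Helper34.BI5.StN
import Pool.Agent.Helper34.BI5.VK9

/-!
# `StCRL` from the crossing lemma for nice spheres `StCRN`
-/

set_option autoImplicit false

open scoped Manifold ContDiff Topology ComplexConjugate
open Set Pool.Agent.Helper65.Barb Pool.Agent.Helper18.BI
open Pool.Agent.Helper70.BI (I4 IsW)
open Pool.Agent.Helper27.H (ArcD)
open Pool.Agent.Helper18.BI.H
open Pool.Agent.Helper18.BI.R
open Pool.Agent.Helper18.BI.S5

namespace Pool.Agent.Helper34.S5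

theorem dr_congr {F : R4 → R4} {g g' k k' : R3 → R4} (h : DR F g g') (e : ∀ m ∈ S2, k m = g m)
    (e' : ∀ m ∈ S2, k' m = g' m) : DR F k k' := by
  have h1 : (fun q s => k (mm q s)) = fun q s => g (mm q s) :=
    funext fun q => funext fun s => e _ (mm_S2 q s)
  have h2 : (fun q s => k' (mm q s)) = fun q s => g' (mm q s) :=
    funext fun q => funext fun s => e' _ (mm_S2 q s)
  unfold DR
  rw [h1, h2]
  exact h

theorem Bs.congr {F : R4 → R4} {g k : R3 → R4} (h : Bs F g) (e : ∀ m ∈ S2, k m = g m) :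
    Bs F k where
  cont := h.cont.congr e
  off m hm := by rw [e m hm]; exact h.off m hm
  base := by rw [e _ base_mem]; exact h.base

/-- the point beside the base point -/
noncomputable def sd (τ : ℝ) : R4 := (1 / 2, ((73 / 100 : ℝ), (τ : ℂ)))

theorem continuous_sd : Continuous sd := by
  unfold sd
  fun_prop

theorem sd_off {τ : ℝ} (h : τ ≠ 0) : sd τ ∉ neck := by
  rintro ⟨-, -, -, h1⟩
  have h2 : (τ : ℂ) = 0 := h1
  exact h (by exact_mod_cast h2)

theorem sd_off_sph (τ : ℝ) : sd τ ∉ sph 1 := by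
  rintro ⟨-, h1⟩
  have h2 : rsq 1 (sd τ) = (73 / 100 - 1) ^ 2 + τ ^ 2 := by
    show nsq (_, _) = _
    simp [nsq, sd]
  rw [h2] at h1
  have h3 := sq_nonneg τ
  norm_num at h1
  nlinarith

theorem Gc_real (r : ℝ) : Gc r (0, 1) = (1 / 2 + r, ((1 : ℝ), ((1 / 5 : ℝ) : ℂ))) := by
  have h1 : nm ((0, 1) : R3) = 1 := by
    unfold nm nsq
    simp
  unfold Gc
  rw [h1]
  refine Prod.ext ?_ (Prod.ext ?_ ?_)
  · show 1 / 2 + (r : ℂ).re = 1 / 2 + r
    rw [Complex.ofReal_re]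
  · simp
  · simp

theorem exists_radius {F : R4 → R4} (hF : EmbOn I4 F SP) : ∃ η > 0,
    (∀ τ, |τ| < η → ContinuousAt F (sd τ)) ∧ (∀ τ, |τ| < η → F (sd τ) ∉ F '' sph 1) ∧
    (∀ τ, |τ| < η → τ ≠ 0 → F (sd τ) ∉ F '' (sph 1 ∪ neck)) ∧
    ∀ r : ℝ, |r| < η → r ≠ 0 → F (Gc r (0, 1)) ∉ F '' (sph 1 ∪ neck) := by
  obtain ⟨δ, hδ, hδF⟩ := hA1 R4 R4 R4 I4 R4 F SP X2.isCompact_SP hF.1 hF.2
  have hN : IsOpen δ.source := δ.open_source
  have hFc : ContinuousOn F δ.source := by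
    refine ContinuousOn.congr δ.contMDiffOn_toFun.continuousOn ?_
    intro p hp
    exact (hδF p hp).symm
  have hFi : InjOn F δ.source := by
    intro p hp q hq h
    rw [← hδF p hp, ← hδF q hq] at h
    exact δ.injOn hp hq h
  have h0 : sd 0 ∈ δ.source := by
    refine hδ (neck_subset_SP ⟨rfl, ?_, ?_, ?_⟩)
    · show (1 / 5 : ℝ) ≤ 73 / 100; norm_num
    · show (73 / 100 : ℝ) ≤ 4 / 5; norm_num
    · show (((0 : ℝ) : ℂ)) = 0
      simp
  have h1 : Gc ((0 : ℝ) : ℂ) (0, 1) ∈ δ.source := by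
    refine hδ (sph1_subset_SP ?_)
    rw [Gc_real]
    refine ⟨by show (1 / 2 + 0 : ℝ) = 1 / 2; norm_num, ?_⟩
    show nsq (_, _) = _
    simp [nsq]
    norm_num
  have hc : Continuous fun r : ℝ => Gc r (0, 1) := by
    have e : (fun r : ℝ => Gc r (0, 1)) = fun r : ℝ =>
        ((1 / 2 + r, ((1 : ℝ), ((1 / 5 : ℝ) : ℂ))) : R4) := funext Gc_real
    rw [e]
    fun_prop
  obtain ⟨a, ha, ha'⟩ := Metric.mem_nhds_iff.1 ((hN.preimage continuous_sd).mem_nhds h0)
  obtain ⟨b, hb, hb'⟩ := Metric.mem_nhds_iff.1 ((hN.preimage hc).mem_nhds h1)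
  have hmemK : ∀ q ∈ δ.source, ∀ A ⊆ SP, F q ∈ F '' A → q ∈ A := by
    rintro q hq A hA ⟨q', hq', h⟩
    rwa [← hFi (hδ (hA hq')) hq h]
  have hτ : ∀ τ : ℝ, |τ| < min (min a b) (1 / 10) → sd τ ∈ δ.source := by
    intro τ hτ
    refine ha' ?_
    rw [mem_ball_zero_iff, Real.norm_eq_abs]
    exact lt_of_lt_of_le hτ ((min_le_left _ _).trans (min_le_left _ _))
  refine ⟨min (min a b) (1 / 10), by positivity, ?_, ?_, ?_, ?_⟩
  · intro τ h
    exact hFc.continuousAt (hN.mem_nhds (hτ τ h))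
  · intro τ h hK
    exact sd_off_sph τ (hmemK _ (hτ τ h) _ sph1_subset_SP hK)
  · intro τ h h2 hK
    rcases hmemK _ (hτ τ h) _ sphneck_subset_SP hK with h3 | h3
    · exact sd_off_sph τ h3
    · exact sd_off h2 h3
  · intro r h h2 hK
    have h4 : Gc r (0, 1) ∈ δ.source := by
      refine hb' ?_
      rw [mem_ball_zero_iff, Real.norm_eq_abs]
      exact lt_of_lt_of_le h ((min_le_left _ _).trans (min_le_right _ _))
    have h5 : (Gc r (0, 1)).1 = 1 / 2 := by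
      rcases hmemK _ h4 _ sphneck_subset_SP hK with h3 | h3 <;> exact h3.1
    rw [Gc_real] at h5
    apply h2
    have h6 : (1 / 2 + r : ℝ) = 1 / 2 := h5
    linarith

/-- the sphere is parametrised by the plane -/
theorem S2_subset_range : S2 ⊆ range (fun z : ℝ × ℝ =>
    ((Real.cos z.1, ((Real.sin z.1 : ℝ) : ℂ) * Complex.exp ((z.2 : ℂ) * Complex.I)) : R3)) := by
  intro m hm
  have h1 : m.1 ^ 2 + ‖m.2‖ ^ 2 = 1 := by
    have h2 : m.1 ^ 2 + m.2.re ^ 2 + m.2.im ^ 2 = 1 := hm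
    have h3 : ‖m.2‖ ^ 2 = m.2.re ^ 2 + m.2.im ^ 2 := by
      rw [← Complex.normSq_eq_norm_sq, Complex.normSq_apply]
      ring
    rw [h3]
    linarith
  set z : ℂ := ⟨m.1, ‖m.2‖⟩ with hz
  have h4 : ‖z‖ = 1 := by
    have h5 : ‖z‖ ^ 2 = 1 := by
      rw [← Complex.normSq_eq_norm_sq, Complex.normSq_apply, ← h1]
      show m.1 * m.1 + ‖m.2‖ * ‖m.2‖ = _
      ring
    nlinarith [norm_nonneg z]
  have hz0 : z ≠ 0 := by
    intro h
    rw [h, norm_zero] at h4
    norm_num at h4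
  have h6 : Real.cos z.arg = m.1 := by
    rw [Complex.cos_arg hz0, h4, div_one]
  have h7 : Real.sin z.arg = ‖m.2‖ := by
    rw [Complex.sin_arg, h4, div_one]
  refine ⟨(z.arg, m.2.arg), Prod.ext h6 ?_⟩
  show ((Real.sin z.arg : ℝ) : ℂ) * Complex.exp ((m.2.arg : ℂ) * Complex.I) = m.2
  rw [h7]
  exact Complex.norm_mul_exp_arg_mul_I m.2

section
variable {F : R4 → R4} (hHCL : StHCL) (hT2 : StT2) (hCI : StCI) (hEX : StEX)
  (hF : EmbOn I4 F SP)
include hHCL hT2 hCI hEX hF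

/-- replacing the track and the sphere by homotopic ones -/
theorem dr_replace {x y z : Off (F '' sph 1)} (hx : (x : R4) = bp F) {w v : Path x y}
    {c : Path y z} (hw : cl w = cl v) {h : ℝ × R3 → R4} (hh : FH F h (pf (w.trans c)))
    {k : R3 → R4} (hk : ContinuousOn k S2) (hkK : ∀ m ∈ S2, k m ∉ F '' sph 1)
    (hkz : k (1, 0) = z) {G : ℝ × R3 → R4} (hG : FH F G (fun _ => (z : R4)))
    (hG0 : ∀ m ∈ S2, G (0, m) = k m) (hG1 : ∀ m ∈ S2, G (1, m) = h (1, m)) :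
    Bs F (fill k (pf (v.trans c))) ∧ DR F (fun m => h (0, m)) (fill k (pf (v.trans c))) := by
  obtain ⟨a, ha, ha1, ha0⟩ := transport (F := F) (k := k) (w := pf (v.trans c)) hk
    (pf_cont _).continuousOn (by rw [pf_one, hkz]) hkK fun t _ => pf_off _ t
  have hb : FH F (hcat a G) (pf ((v.trans c).trans (Path.refl z))) := by
    refine (fh_cat ha hG fun m hm => (ha1 m hm).trans (hG0 m hm).symm).congr
      (fun _ _ _ _ => rfl) fun u hu => ?_
    rw [pf_trans _ _ hu]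
    unfold pcat
    split_ifs
    · rfl
    · show pf (Path.refl z) _ = (z : R4)
      unfold pf
      simp
  have e : cl (w.trans c) = cl ((v.trans c).trans (Path.refl z)) := by
    have e1 : cl (w.trans c) = (cl w).trans (cl c) := rfl
    have e2 : cl ((v.trans c).trans (Path.refl z)) = ((cl v).trans (cl c)).trans
      (cl (Path.refl z)) := rfl
    rw [e1, e2, hw]
    exact (Path.Homotopic.Quotient.trans_refl _).symm
  have d := dr_tracks hHCL hT2 hCI hEX hF hx e hh hb fun m hm => by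
    rw [hcat_one]
    exact (hG1 m hm).symm
  have hbs : Bs F (fun m => a (0, m)) := ha.bs (by rw [pf_zero, hx])
  refine ⟨hbs.congr fun m hm => (ha0 m hm).symm, dr_congr d (fun _ _ => rfl) fun m hm => ?_⟩
  show fill k (pf (v.trans c)) m = hcat a G (0, m)
  rw [hcat_zero, ha0 m hm]

omit hHCL hT2 hCI hEX in
/-- the nice path in the class of a path -/
theorem exists_nice {x y : Off (F '' sph 1)} (hx : (x : R4) = bp F) (w : Path x y)
    (hy : (y : R4) ∉ F '' (sph 1 ∪ neck)) {τ₁ : ℝ} (hτ : 0 < τ₁)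
    (hc : ∀ τ, |τ| ≤ τ₁ → ContinuousAt F (sd τ)) (hK : ∀ τ, |τ| ≤ τ₁ → F (sd τ) ∉ F '' sph 1)
    (hN : ∀ τ, |τ| ≤ τ₁ → τ ≠ 0 → F (sd τ) ∉ F '' (sph 1 ∪ neck)) :
    ∃ v : Path x y, cl w = cl v ∧ NicePath F τ₁ (pf v) := by
  have hab : ∀ t : unitInterval, |(t : ℝ) * τ₁| ≤ τ₁ := fun t => by
    rw [abs_of_nonneg (mul_nonneg t.2.1 hτ.le)]
    exact mul_le_of_le_one_left hτ.le t.2.2
  let z : Off (F '' sph 1) := ⟨F (sd τ₁), hK τ₁ (abs_of_pos hτ).le⟩
  have hsd0 : F (sd 0) = x := by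
    rw [hx]
    show F (1 / 2, ((73 / 100 : ℝ), ((0 : ℝ) : ℂ))) = F (1 / 2, ((73 / 100 : ℝ), (0 : ℂ)))
    rw [Complex.ofReal_zero]
  let σ : Path x z :=
    { toFun := fun t => ⟨F (sd ((t : ℝ) * τ₁)), hK _ (hab t)⟩
      continuous_toFun := by
        refine Continuous.subtype_mk ?_ _
        rw [continuous_iff_continuousAt]
        intro t
        have h1 : ContinuousAt (fun t : unitInterval => sd ((t : ℝ) * τ₁)) t :=
          (continuous_sd.comp (continuous_subtype_val.mul continuous_const)).continuousAt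
        exact ContinuousAt.comp (hc _ (hab t)) h1
      source' := by
        refine Subtype.ext ?_
        show F (sd (((0 : unitInterval) : ℝ) * τ₁)) = x
        rw [Set.Icc.coe_zero, zero_mul, hsd0]
      target' := by
        refine Subtype.ext ?_
        show F (sd (((1 : unitInterval) : ℝ) * τ₁)) = F (sd τ₁)
        rw [Set.Icc.coe_one, one_mul] }
  have hzN : (z : R4) ∉ F '' (sph 1 ∪ neck) := hN τ₁ (abs_of_pos hτ).le hτ.ne'
  let w' : Path z y := σ.symm.trans w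
  -- general position relative to the end points
  obtain ⟨ρ, hρ, hm⟩ : ∃ ρ > 0, ∀ t ∈ ({0, 1} : Set ℝ), ∀ q ∈ F '' (sph 1 ∪ neck),
      2 * ρ ≤ dist (pf w' t) q := by
    have h1 : ∀ t ∈ ({0, 1} : Set ℝ), pf w' t ∉ F '' (sph 1 ∪ neck) := by
      rintro t (rfl | rfl)
      · rw [pf_zero]; exact hzN
      · rw [pf_one]; exact hy
    obtain ⟨ρ, h2, hρ⟩ := ((margin (Set.toFinite _).isCompact (pf_cont w').continuousOn
      (isCompact_N hF) h1).and self_mem_nhdsWithin).exists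
    exact ⟨ρ, hρ, h2⟩
  obtain ⟨H, hHc, H0, HY, HK, HN⟩ := exists_gp hF (X := Icc (0 : ℝ) 1) (Y := {0, 1})
    isCompact_Icc (p := fun z : ℝ × ℝ => z.1) contDiff_fst (fun t _ => ⟨(t, 0), rfl⟩)
    (pf_cont w').continuousOn (fun t _ => pf_off w' t) hρ hm
  have hH1c : Continuous fun t : unitInterval => H (1, (t : ℝ)) :=
    hHc.comp_continuous (by fun_prop) fun t => ⟨⟨zero_le_one, le_rfl⟩, t.2⟩
  let v' : Path z y :=
    { toFun := fun t => ⟨H (1, (t : ℝ)), HK 1 ⟨zero_le_one, le_rfl⟩ _ t.2⟩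
      continuous_toFun := hH1c.subtype_mk _
      source' := by
        refine Subtype.ext ?_
        show H (1, ((0 : unitInterval) : ℝ)) = z
        rw [Set.Icc.coe_zero, HY 0 (by simp), pf_zero]
      target' := by
        refine Subtype.ext ?_
        show H (1, ((1 : unitInterval) : ℝ)) = y
        rw [Set.Icc.coe_one, HY 1 (by simp), pf_one] }
  have hv' : Path.Homotopic w' v' := by
    refine ⟨{ toFun := fun s => ⟨H ((s.1 : ℝ), (s.2 : ℝ)), HK _ s.1.2 _ s.2.2⟩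
              continuous_toFun := ?_
              map_zero_left := ?_
              map_one_left := ?_
              prop' := ?_ }⟩
    · refine Continuous.subtype_mk ?_ _
      exact hHc.comp_continuous (by fun_prop) fun s => ⟨s.1.2, s.2.2⟩
    · intro t
      refine Subtype.ext ?_
      show H (((0 : unitInterval) : ℝ), (t : ℝ)) = w' t
      rw [Set.Icc.coe_zero, H0 _ t.2, pf_coe]
    · intro t
      rfl
    · rintro s t (rfl | rfl)
      · refine Subtype.ext ?_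
        show H ((s : ℝ), ((0 : unitInterval) : ℝ)) = w' 0
        rw [Set.Icc.coe_zero, HY 0 (by simp), pf_zero, w'.source]
      · refine Subtype.ext ?_
        show H ((s : ℝ), ((1 : unitInterval) : ℝ)) = w' 1
        rw [Set.Icc.coe_one, HY 1 (by simp), pf_one, w'.target]
  have e1 : cl w' = cl v' := Path.Homotopic.Quotient.eq.2 hv'
  refine ⟨σ.trans v', ?_, ?_⟩
  · have e2 : cl (σ.trans v') = (cl σ).trans (cl v') := rfl
    have e3 : cl w' = (cl σ).symm.trans (cl w) := rfl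
    rw [e2, ← e1, e3, ← Path.Homotopic.Quotient.trans_assoc, Path.Homotopic.Quotient.trans_symm,
      Path.Homotopic.Quotient.refl_trans]
  · refine ⟨(pf_cont _).continuousOn, ?_, ?_⟩
    · intro t ht
      rw [pf_trans _ _ ⟨ht.1, by linarith [ht.2]⟩]
      unfold pcat
      rw [if_pos ht.2]
      exact pf_coe σ ⟨2 * t, by linarith [ht.1], by linarith [ht.2]⟩
    · intro t ht
      rw [pf_trans _ _ ⟨by linarith [ht.1], ht.2⟩]
      unfold pcat
      split_ifs with h1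
      · have h2 : 2 * t = 1 := by linarith [ht.1]
        rw [h2, pf_one]
        exact hzN
      · rw [not_le] at h1
        have h2 : pf v' (2 * t - 1) = H (1, 2 * t - 1) :=
          pf_coe v' ⟨2 * t - 1, by linarith, by linarith [ht.2]⟩
        rw [h2]
        exact HN _ ⟨by linarith, by linarith [ht.2]⟩

omit hHCL hT2 hCI hEX in
/-- the nice sphere in the class of a sphere -/
theorem exists_nice_sphere {k₁ : R3 → R4} (hk : ContinuousOn k₁ S2)
    (hkK : ∀ m ∈ S2, k₁ m ∉ F '' sph 1) (hb : k₁ (1, 0) ∉ F '' (sph 1 ∪ neck)) :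
    ∃ (k : R3 → R4) (G : ℝ × R3 → R4), ContinuousOn k S2 ∧
      (∀ m ∈ S2, k m ∉ F '' (sph 1 ∪ neck)) ∧ k (1, 0) = k₁ (1, 0) ∧
      FH F G (fun _ => k₁ (1, 0)) ∧ (∀ m ∈ S2, G (0, m) = k m) ∧ ∀ m ∈ S2, G (1, m) = k₁ m := by
  obtain ⟨ρ, hρ, hm⟩ : ∃ ρ > 0, ∀ t ∈ ({(1, 0)} : Set R3), ∀ q ∈ F '' (sph 1 ∪ neck),
      2 * ρ ≤ dist (k₁ t) q := by
    obtain ⟨ρ, h2, hρ⟩ := ((margin (C := ({(1, 0)} : Set R3)) (f := k₁) isCompact_singleton
      (hk.mono (by rintro _ rfl; exact base_mem)) (isCompact_N hF)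
      (by rintro _ rfl; exact hb)).and self_mem_nhdsWithin).exists
    exact ⟨ρ, hρ, h2⟩
  have hp : ContDiff ℝ ∞ fun z : ℝ × ℝ =>
      ((Real.cos z.1, ((Real.sin z.1 : ℝ) : ℂ) * Complex.exp ((z.2 : ℂ) * Complex.I)) : R3) := by
    refine ContDiff.prodMk (Real.contDiff_cos.comp contDiff_fst) ?_
    refine ContDiff.mul (Complex.ofRealCLM.contDiff.comp (Real.contDiff_sin.comp contDiff_fst)) ?_
    refine ContDiff.cexp ?_
    exact (Complex.ofRealCLM.contDiff.comp contDiff_snd).mul contDiff_const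
  obtain ⟨H, hHc, H0, HY, HK, HN⟩ := exists_gp hF (X := S2) (Y := {(1, 0)})
    isCompact_S2 hp S2_subset_range hk hkK hρ hm
  have hmem : ∀ u ∈ Icc (0 : ℝ) 1, 1 - u ∈ Icc (0 : ℝ) 1 := fun u hu =>
    ⟨by linarith [hu.2], by linarith [hu.1]⟩
  refine ⟨fun m => H (1, m), fun z => H (1 - z.1, z.2), ?_, HN, HY _ rfl _, ⟨?_, ?_, ?_⟩, ?_, ?_⟩
  · exact hHc.comp (Continuous.continuousOn (by fun_prop)) fun m hm =>
      ⟨⟨zero_le_one, le_rfl⟩, hm⟩
  · exact hHc.comp (Continuous.continuousOn (by fun_prop)) fun z hz => ⟨hmem _ hz.1, hz.2⟩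
  · intro u hu m hm
    exact HK _ (hmem u hu) m hm
  · intro u _
    exact HY _ rfl _
  · intro m _
    show H (1 - 0, m) = H (1, m)
    rw [sub_zero]
  · intro m hm
    show H (1 - 1, m) = k₁ m
    rw [sub_self, H0 m hm]

end

/-- **CRL from CRN.** -/
theorem m_CRL (hHCL : StHCL) (hT2 : StT2) (hCI : StCI) (hEX : StEX) (hCRN : StCRN) : StCRL := by
  intro F hF η hη
  obtain ⟨η₁, hη₁, T, hκ, hP, hQ⟩ := exists_tub I4 hF
  obtain ⟨η₂, hη₂, hFc, hK, hN, hGc⟩ := exists_radius hF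
  obtain ⟨r₀, hr₀, hC⟩ := hCRN F hF
  obtain ⟨r, hr, hr'⟩ : ∃ r : ℝ, 0 < r ∧ r < min (min η η₁) (min η₂ r₀) :=
    exists_between (by positivity)
  have hrη : r < η := lt_of_lt_of_le hr' ((min_le_left _ _).trans (min_le_left _ _))
  have hrη₁ : r < η₁ := lt_of_lt_of_le hr' ((min_le_left _ _).trans (min_le_right _ _))
  have hrη₂ : r < η₂ := lt_of_lt_of_le hr' ((min_le_right _ _).trans (min_le_left _ _))
  have hrr₀ : r < r₀ := lt_of_lt_of_le hr' ((min_le_right _ _).trans (min_le_right _ _))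
  have hv : ((0, 1) : R3) ≠ 0 := fun h => one_ne_zero (congrArg Prod.snd h)
  refine ⟨r, ⟨hr, hrη⟩, (0, 1), hv, ?_⟩
  intro w h h' hw0 hh hh' h1
  -- the half circles
  have hexp : ∀ θ : ℝ, Complex.exp (((Real.log r : ℝ) : ℂ) + (θ : ℂ) * Complex.I)
      = r * Complex.exp ((θ : ℂ) * Complex.I) := by
    intro θ
    rw [Complex.exp_add, ← Complex.ofReal_exp, Real.exp_log hr]
  have hcirc_eq : ∀ σ u : ℝ, hcirc F r (0, 1) σ u
      = T.Q (((Real.log r : ℝ) : ℂ) + ((σ * Real.pi * u : ℝ) : ℂ) * Complex.I, (0, 1)) := by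
    intro σ u
    rw [hQ, hexp]
    rfl
  have hzθ : ∀ θ : ℝ, ((((Real.log r : ℝ) : ℂ) + (θ : ℂ) * Complex.I, (0, 1)) : ℂ × R3) ∈
      {ℓ : ℂ | ℓ.re < T.κ} ×ˢ T.P := by
    intro θ
    refine ⟨?_, by rw [hP]; exact hv⟩
    show (((Real.log r : ℝ) : ℂ) + (θ : ℂ) * Complex.I).re < T.κ
    rw [Complex.add_re, Complex.ofReal_re, Complex.mul_re, Complex.ofReal_re, Complex.I_re,
      Complex.ofReal_im, Complex.I_im, hκ]
    have := Real.log_lt_log hr hrη₁
    linarith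
  have hcoff : ∀ σ u : ℝ, hcirc F r (0, 1) σ u ∉ F '' sph 1 := by
    intro σ u
    rw [hcirc_eq]
    exact T.off _ (hzθ _)
  have hccont : ∀ σ : ℝ, Continuous (hcirc F r (0, 1) σ) := by
    intro σ
    have h2 : hcirc F r (0, 1) σ = fun u =>
        T.Q (((Real.log r : ℝ) : ℂ) + ((σ * Real.pi * u : ℝ) : ℂ) * Complex.I, (0, 1)) :=
      funext (hcirc_eq σ)
    rw [h2]
    refine T.contQ (by fun_prop) continuous_const (fun u => (hzθ _).1) fun _ => ?_
    rw [hP]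
    exact hv
  have hc0 : ∀ σ : ℝ, hcirc F r (0, 1) σ 0 = F (Gc r (0, 1)) := by
    intro σ
    unfold hcirc
    simp
  have hcm : hcirc F r (0, 1) 1 1 = F (Gc ((-r : ℝ) : ℂ) (0, 1)) := by
    unfold hcirc
    have : (((1 * Real.pi * 1 : ℝ) : ℂ) * Complex.I) = Real.pi * Complex.I := by
      push_cast
      ring
    rw [this, Complex.exp_pi_mul_I]
    congr 2
    push_cast
    ring
  have hcm' : hcirc F r (0, 1) (-1) 1 = F (Gc ((-r : ℝ) : ℂ) (0, 1)) := by
    unfold hcirc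
    have : (((-1 * Real.pi * 1 : ℝ) : ℂ) * Complex.I) = -(Real.pi * Complex.I) := by
      push_cast
      ring
    rw [this, Complex.exp_neg, Complex.exp_pi_mul_I]
    congr 2
    push_cast
    norm_num
  let y : Off (F '' sph 1) := ⟨F (Gc r (0, 1)), by rw [← hc0 1]; exact hcoff 1 0⟩
  let z : Off (F '' sph 1) := ⟨F (Gc ((-r : ℝ) : ℂ) (0, 1)), by rw [← hcm]; exact hcoff 1 1⟩
  let x : Off (F '' sph 1) := ⟨bp F, bp_off hF⟩
  let c : Path y z :=
    { toFun := fun t => ⟨hcirc F r (0, 1) 1 t, hcoff 1 t⟩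
      continuous_toFun := ((hccont 1).comp continuous_subtype_val).subtype_mk _
      source' := Subtype.ext (hc0 1)
      target' := Subtype.ext hcm }
  let c' : Path y z :=
    { toFun := fun t => ⟨hcirc F r (0, 1) (-1) t, hcoff (-1) t⟩
      continuous_toFun := ((hccont (-1)).comp continuous_subtype_val).subtype_mk _
      source' := Subtype.ext (hc0 (-1))
      target' := Subtype.ext hcm' }
  have hpc : ∀ u ∈ Icc (0 : ℝ) 1, pf c u = hcirc F r (0, 1) 1 u := fun u hu => pf_coe c ⟨u, hu⟩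
  have hpc' : ∀ u ∈ Icc (0 : ℝ) 1, pf c' u = hcirc F r (0, 1) (-1) u :=
    fun u hu => pf_coe c' ⟨u, hu⟩
  -- the path `w`
  have htr : ContinuousOn (fun u : ℝ => h (u, (1, 0))) (Icc 0 1) :=
    hh.cont.comp (Continuous.continuousOn (by fun_prop)) fun u hu => ⟨hu, base_mem⟩
  have hwt : ∀ t ∈ Icc (0 : ℝ) 1, w t = h (t / 2, (1, 0)) := by
    intro t ht
    rw [hh.track _ ⟨by linarith [ht.1], by linarith [ht.2]⟩]
    unfold pcat
    rw [if_pos (by linarith [ht.2])]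
    congr 1
    ring
  have hw1 : w 1 = F (Gc r (0, 1)) := by
    rw [hwt 1 ⟨zero_le_one, le_rfl⟩, ← hc0 1]
    have l1 : Filter.Tendsto (fun u : ℝ => h (u, (1, 0))) (𝓝[>] (1 / 2 : ℝ))
        (𝓝 (h (1 / 2, (1, 0)))) := by
      have h2 : ContinuousAt (fun u : ℝ => h (u, (1, 0))) (1 / 2) :=
        htr.continuousAt (Icc_mem_nhds (by norm_num) (by norm_num))
      exact h2.tendsto.mono_left nhdsWithin_le_nhds
    have l2 : Filter.Tendsto (fun u : ℝ => hcirc F r (0, 1) 1 (2 * u - 1)) (𝓝[>] (1 / 2 : ℝ))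
        (𝓝 (hcirc F r (0, 1) 1 0)) := by
      have h2 : Continuous fun u : ℝ => hcirc F r (0, 1) 1 (2 * u - 1) :=
        (hccont 1).comp (by fun_prop)
      have h3 := h2.tendsto (1 / 2 : ℝ)
      norm_num at h3
      exact h3.mono_left nhdsWithin_le_nhds
    refine tendsto_nhds_unique (l1.congr' ?_) l2
    filter_upwards [Ioo_mem_nhdsGT (show (1 / 2 : ℝ) < 1 by norm_num)] with u hu
    rw [hh.track u ⟨by linarith [hu.1], hu.2.le⟩]
    unfold pcat
    rw [if_neg (not_le.2 hu.1)]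
  have hwoff : ∀ t ∈ Icc (0 : ℝ) 1, w t ∉ F '' sph 1 := by
    intro t ht
    rw [hwt t ht]
    exact hh.off _ ⟨by linarith [ht.1], by linarith [ht.2]⟩ _ base_mem
  have hwc : ContinuousOn w (Icc (0 : ℝ) 1) := by
    refine ContinuousOn.congr (f := fun t => h (t / 2, (1, 0))) ?_ hwt
    exact htr.comp (f := fun t : ℝ => t / 2) (Continuous.continuousOn (by fun_prop)) fun t ht =>
      ⟨by linarith [ht.1], by linarith [ht.2]⟩
  let wp : Path x y :=
    { toFun := fun t => ⟨w t, hwoff t t.2⟩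
      continuous_toFun := (hwc.comp_continuous continuous_subtype_val fun t => t.2).subtype_mk _
      source' := Subtype.ext (by show w ((0 : unitInterval) : ℝ) = bp F
                                 rw [Set.Icc.coe_zero, hw0])
      target' := Subtype.ext (by show w ((1 : unitInterval) : ℝ) = F (Gc r (0, 1))
                                 rw [Set.Icc.coe_one, hw1]) }
  have hpw : ∀ u ∈ Icc (0 : ℝ) 1, pf wp u = w u := fun u hu => pf_coe wp ⟨u, hu⟩
  have hpcat : ∀ (a : Path x y) (b : ℝ → R4) (σ : ℝ) (d : Path y z),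
      (∀ u ∈ Icc (0 : ℝ) 1, pf a u = b u) → (∀ u ∈ Icc (0 : ℝ) 1, pf d u = hcirc F r (0, 1) σ u) →
      ∀ u ∈ Icc (0 : ℝ) 1, pf (a.trans d) u = pcat b (hcirc F r (0, 1) σ) u := by
    intro a b σ d ha hd u hu
    rw [pf_trans a d hu]
    unfold pcat
    split_ifs with h2
    · exact ha _ ⟨by linarith [hu.1], by linarith⟩
    · rw [not_le] at h2
      exact hd _ ⟨by linarith, by linarith [hu.2]⟩
  have f1 : FH F h (pf (wp.trans c)) :=
    hh.congr (fun _ _ _ _ => rfl) fun u hu => hpcat wp w 1 c hpw hpc u hu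
  have f2 : FH F h' (pf (wp.trans c')) :=
    hh'.congr (fun _ _ _ _ => rfl) fun u hu => hpcat wp w (-1) c' hpw hpc' u hu
  -- the nice path
  have hyN : (y : R4) ∉ F '' (sph 1 ∪ neck) := hGc r (by rw [abs_of_pos hr]; exact hrη₂) hr.ne'
  have hzN : (z : R4) ∉ F '' (sph 1 ∪ neck) :=
    hGc (-r) (by rw [abs_neg, abs_of_pos hr]; exact hrη₂) (neg_ne_zero.2 hr.ne')
  obtain ⟨v, hvw, hnv⟩ := exists_nice hF (x := x) rfl wp hyN hr
    (fun τ hτ => hFc τ (lt_of_le_of_lt hτ hrη₂)) (fun τ hτ => hK τ (lt_of_le_of_lt hτ hrη₂))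
    (fun τ hτ => hN τ (lt_of_le_of_lt hτ hrη₂))
  -- the nice sphere
  have hk1 : h (1, (1, 0)) = z := by
    rw [f1.track 1 ⟨zero_le_one, le_rfl⟩, pf_one]
  obtain ⟨k, G, hkc, hkN, hkb, hG, hG0, hG1⟩ := exists_nice_sphere hF
    (k₁ := fun m => h (1, m)) (hh.one_cont 1 ⟨zero_le_one, le_rfl⟩)
    (hh.off 1 ⟨zero_le_one, le_rfl⟩) (by rw [hk1]; exact hzN)
  have hkz : k (1, 0) = z := by rw [hkb, hk1]
  have hkK : ∀ m ∈ S2, k m ∉ F '' sph 1 := by
    rintro m hm ⟨q, hq, e⟩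
    exact hkN m hm ⟨q, Or.inl hq, e⟩
  have hG' : FH F G (fun _ => (z : R4)) := hG.congr (fun _ _ _ _ => rfl) fun _ _ => hk1.symm
  obtain ⟨b1, d1⟩ := dr_replace hHCL hT2 hCI hEX hF (x := x) rfl (c := c) hvw f1 hkc hkK hkz hG'
    hG0 hG1
  obtain ⟨b2, d2⟩ := dr_replace hHCL hT2 hCI hEX hF (x := x) rfl (c := c') hvw f2 hkc hkK hkz hG'
    hG0 fun m hm => (hG1 m hm).trans (h1 m hm)
  have d3 := hC r ⟨hr, hrr₀⟩ r ⟨hr, hrr₀⟩ (pf v) k hnv (pf_one v) hkc hkN (by
    rw [hkz]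
    show F (Gc ((-r : ℝ) : ℂ) (0, 1)) = _
    rw [Complex.ofReal_neg])
  have d4 : DR F (fill k (pf (v.trans c))) (fill k (pf (v.trans c'))) :=
    dr_congr d3
      (fun m hm => fill_congr (fun _ _ => rfl) (hpcat v (pf v) 1 c (fun _ _ => rfl) hpc) hm)
      fun m hm => fill_congr (fun _ _ => rfl) (hpcat v (pf v) (-1) c' (fun _ _ => rfl) hpc') hm
  exact dr_trans hF hHCL hT2 hCI hEX b1 d1
    (dr_trans hF hHCL hT2 hCI hEX b2 d4 (dr_symm hHCL hT2 hCI d2))

end Pool.Agent.Helper34.S5
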