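import Pool.Agent.Helper27.BI.S5.St5c
import Pool.Agent.Helper18.BI.R.M_FREE

/-!
# SHD: squares of homotopies off the limit of the wall
-/

set_option autoImplicit false

open scoped Manifold ContDiff Topology ComplexConjugate
open Set Filter Pool.Agent.Helper65.Barb Pool.Agent.Helper18.BI
open Pool.Agent.Helper70.BI (I4)
open Pool.Agent.Helper27.H
open Pool.Agent.Helper27.S5
open Pool.Agent.Helper18.BI.H
open Pool.Agent.Helper18.BI.R

namespace Pool.Agent.Helper34.S5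

theorem sq0_wall {δ : ℝ} (hδ : 0 < δ) {p : R4} (hp : p ∈ wallS δ) : sq 0 p = (1 / 2, p.2) :=
  hS4.2.2.1 p (Or.inr (Or.inl (by linarith [hp.2.2.2])))

theorem sq0_wall_shell {δ δ₀ : ℝ} (hδ : 0 < δ) (hd : δ ≤ δ₀) {p : R4} (hp : p ∈ wallS δ) :
    sq 0 p ∈ shell δ₀ := by
  rw [sq0_wall hδ hp]
  refine ⟨rfl, ?_, ?_⟩
  · show 1 / 25 - 3 * δ₀ ≤ rsq 1 p
    linarith [hp.2.2.1]
  · show rsq 1 p ≤ 1 / 25
    linarith [hp.2.2.2]

theorem isCompact_sq0wall {δ : ℝ} (hδ : δ ∈ Ioo (0 : ℝ) (1 / 100)) : IsCompact (sq 0 '' wallS δ) := by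
  have h : sq 0 '' wallS δ = (fun p : R4 => ((1 / 2 : ℝ), p.2)) '' wallS δ :=
    image_congr fun p hp => sq0_wall hδ.1 hp
  rw [h]
  exact (isCompact_wall hδ).image (by fun_prop)

theorem m_SHD : StSHD := by
  rintro F δ₀ δ' g g' hF hd hδ' ⟨h, hc, hb, he, ho⟩
  have hSP : IsCompact SP := hS4.2.2.2.2.2.2.2.2.1
  obtain ⟨O, hO, hLO, hFO, hFc⟩ := emb_open (hSP.union (isCompact_shell δ₀)) hF
  have hKO : sq 0 '' wallS δ' ⊆ O := by
    rintro _ ⟨p, hp, rfl⟩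
    exact hLO (Or.inr (sq0_wall_shell hδ'.1 hd hp))
  have hA : IsCompact (F '' (sq 0 '' wallS δ')) :=
    (isCompact_sq0wall hδ').image_of_continuousOn (hFc.mono hKO)
  obtain ⟨κ, h1, hκ⟩ := ((margin (isCompact_Icc.prod isCompact_S2) hc hA
    fun z hz => ho z.1 hz.1 z.2 hz.2).and self_mem_nhdsWithin).exists
  have hκ : 0 < κ := hκ
  have hW : IsOpen (O ∩ F ⁻¹' (Metric.thickening κ (F '' (sq 0 '' wallS δ')))) :=
    hFc.isOpen_inter_preimage hO Metric.isOpen_thickening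
  obtain ⟨ε₁, hε₁, e1⟩ := exists_eps (isCompact_wall hδ') hW fun p hp =>
    ⟨hKO (mem_image_of_mem _ hp), Metric.self_subset_thickening hκ _
      (mem_image_of_mem F (mem_image_of_mem (sq 0) hp))⟩
  obtain ⟨ε₂, hε₂, e2⟩ := m_NRB F (Pool.Agent.Helper27.BI.EmbOn.mono hF subset_union_left) (κ / 2)
    (by positivity)
  obtain ⟨ε₃, hε₃, e3⟩ := exists_eps
    (K := (fun s : ℝ => ((s, ((73 / 100 : ℝ), (0 : ℂ))) : R4)) '' Icc (9 / 20) (11 / 20)) (U := O)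
    (isCompact_Icc.image (by fun_prop)) hO (by
      rintro _ ⟨s, -, rfl⟩
      have e : sq 0 (s, ((73 / 100 : ℝ), (0 : ℂ))) = bar (73 / 100) :=
        hS4.2.2.1 _ (Or.inr (Or.inr ⟨by norm_num, by norm_num, rfl⟩))
      rw [e]
      exact hLO (Or.inl (bar_mem_SP (by norm_num) (by norm_num))))
  refine ⟨min ε₁ (min ε₂ ε₃), by positivity, fun ε hε => ?_⟩
  have hε1 : ε ∈ Ioo 0 ε₁ := ⟨hε.1, lt_of_lt_of_le hε.2 (min_le_left _ _)⟩
  have hε2 : ε ∈ Ioo 0 ε₂ :=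
    ⟨hε.1, lt_of_lt_of_le hε.2 ((min_le_right _ _).trans (min_le_left _ _))⟩
  have hε3 : ε ∈ Ioo 0 ε₃ :=
    ⟨hε.1, lt_of_lt_of_le hε.2 ((min_le_right _ _).trans (min_le_right _ _))⟩
  have harc : ContinuousOn (fun s : ℝ => F (sq ε (s, ((73 / 100 : ℝ), (0 : ℂ)))))
      (Icc (9 / 20) (11 / 20)) := by
    refine hFc.comp ?_ fun s hs => e3 ε hε3 _ (mem_image_of_mem _ hs)
    exact ((continuous_sq hε.1).comp
      (f := fun s : ℝ => ((s, ((73 / 100 : ℝ), (0 : ℂ))) : R4)) (by fun_prop)).continuousOn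
  refine ⟨fun z => h (z.1, mm z.2.1 z.2.2) + (F (sq ε (z.2.2, ((73 / 100 : ℝ), 0))) - bp F), ?_, ?_, ?_⟩
  · refine ContinuousOn.add ?_ (ContinuousOn.sub ?_ continuousOn_const)
    · refine hc.comp (f := fun z : ℝ × ℝ × ℝ => (z.1, mm z.2.1 z.2.2)) ?_ ?_
      · exact (continuous_fst.prodMk (continuous_mm.comp continuous_snd)).continuousOn
      · intro z hz
        exact ⟨hz.1, mm_S2 _ _⟩
    · exact harc.comp (Continuous.continuousOn (by fun_prop)) fun z hz => hz.2.2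
  · intro q _ s _
    show h (0, mm q s) + _ = g (mm q s) + _ ∧ h (1, mm q s) + _ = g' (mm q s) + _
    rw [(he _ (mm_S2 q s)).1, (he _ (mm_S2 q s)).2]
    exact ⟨rfl, rfl⟩
  · intro u hu q hq s hs
    have hs' : s ∈ Icc (3 / 10 : ℝ) (7 / 10) := ⟨by linarith [hs.1], by linarith [hs.2]⟩
    refine ⟨fun p hp hn => ?_, fun hbd => ?_⟩
    · have h7 : F (sq ε p) ∈ Metric.thickening κ (F '' (sq 0 '' wallS δ')) := (e1 ε hε1 p hp).2
      obtain ⟨y, hy, hd⟩ := Metric.mem_thickening_iff.1 h7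
      have h3 := h1 (u, mm q s) ⟨hu, mm_S2 q s⟩ y hy
      have h4 := e2 ε hε2 s hs'
      rw [← hn] at hd
      have h5 : dist (h (u, mm q s))
          (h (u, mm q s) + (F (sq ε (s, ((73 / 100 : ℝ), 0))) - bp F)) ≤ κ / 2 := by
        rw [dist_self_add_right, ← dist_eq_norm]
        exact h4
      have h6 := dist_triangle (h (u, mm q s))
        (h (u, mm q s) + (F (sq ε (s, ((73 / 100 : ℝ), 0))) - bp F)) y
      have hd' : dist (h (u, mm q s) + (F (sq ε (s, ((73 / 100 : ℝ), 0))) - bp F)) y < κ := hd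
      linarith
    · show h (u, mm q s) + (F (sq ε (s, ((73 / 100 : ℝ), 0))) - bp F) = _
      rw [mm_bd hbd, hb u hu]
      abel

end Pool.Agent.Helper34.S5
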