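import Pool.Agent.Helper34.BI5.VK6

/-!
# Project BI, stage 5: the crossing lemma for nice spheres (statement)

`StCRN` (helper27) gives `StCRL` (module `M_CRL`, helper34).
-/

set_option autoImplicit false

open scoped Manifold ContDiff Topology ComplexConjugate
open Set Pool.Agent.Helper65.Barb Pool.Agent.Helper18.BI
open Pool.Agent.Helper70.BI (I4 IsW)
open Pool.Agent.Helper27.H (ArcD)
open Pool.Agent.Helper18.BI.H
open Pool.Agent.Helper18.BI.R
open Pool.Agent.Helper18.BI.S5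

namespace Pool.Agent.Helper34.S5

/-- a path from the base point which leaves the bar sideways and is then off the fixed cuff and the bar -/
structure NicePath (F : R4 → R4) (τ₁ : ℝ) (ξ : ℝ → R4) : Prop where
  cont : ContinuousOn ξ (Icc (0 : ℝ) 1)
  start : ∀ t ∈ Icc (0 : ℝ) (1 / 2), ξ t = F (1 / 2, ((73 / 100 : ℝ), ((2 * t * τ₁ : ℝ) : ℂ)))
  off : ∀ t ∈ Icc (1 / 2 : ℝ) 1, ξ t ∉ F '' (sph 1 ∪ neck)

/-- CRN (helper27).  The crossing lemma for nice spheres.  `k` is a sphere off the fixed cuff and the bar with `k (1,0)` the end of the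
half circles, `ξ` a nice path to the beginning of the half circles; `fill k b` (`VK6.lean`; lemmas `fill_cont`, `fill_off`,
`fill_base`) is the based sphere `k` with the path `b` attached: `fill k b m = b (2 (1 - m.1))` for `m.1 > 1/2` and
`fill k b m = k (sg (0, m))` for `m.1 ≤ 1/2` (`sg (0, ·)` maps this part of `S2` onto `S2` and its boundary to `(1, 0)`).
In the collar `9/10 ≤ m.1`: `fill k (pcat ξ _) m = ξ (4 (1 - m.1)) = F (1/2, (73/100, 8 (1 - m.1) τ₁))`, so `StSQF` is applicable with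
`4/5 τ₁` instead of `τ₁`. -/
def StCRN : Prop :=
  ∀ F : R4 → R4, EmbOn I4 F SP → ∃ r₀ > 0, ∀ r ∈ Ioo (0 : ℝ) r₀, ∀ τ₁ ∈ Ioo (0 : ℝ) r₀,
    ∀ (ξ : ℝ → R4) (k : R3 → R4), NicePath F τ₁ ξ → ξ 1 = F (Gc r (0, 1)) →
      ContinuousOn k S2 → (∀ m ∈ S2, k m ∉ F '' (sph 1 ∪ neck)) →
      k (1, 0) = F (Gc (-r) (0, 1)) →
      DR F (fill k (pcat ξ (hcirc F r (0, 1) 1))) (fill k (pcat ξ (hcirc F r (0, 1) (-1))))

end Pool.Agent.Helper34.S5
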