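import Pool.Agent.Helper34.BI5.VK3

/-!
# Two paths in the complement are related if the relation is invariant under one meridian
-/

set_option autoImplicit false

open Set Metric unitInterval
open scoped Topology

namespace Pool.Agent.Helper34.S5

section
variable {E : Type} [NormedAddCommGroup E] [NormedSpace ℝ E] {K : Set E}

theorem local_pc (hK : IsClosed K) (h : ∀ p ∈ K, ∀ O ∈ 𝓝 p, ∃ U : Set E, IsOpen U ∧ p ∈ U ∧
    U ⊆ O ∧ IsPathConnected (U \ K)) (p : E) {O : Set E} (hO : O ∈ 𝓝 p) :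
    ∃ U : Set E, IsOpen U ∧ p ∈ U ∧ U ⊆ O ∧ IsPathConnected (U \ K) := by
  by_cases hp : p ∈ K
  · exact h p hp O hO
  · obtain ⟨r, hr, hr'⟩ := Metric.mem_nhds_iff.1 (Filter.inter_mem hO (hK.isOpen_compl.mem_nhds hp))
    refine ⟨ball p r, isOpen_ball, mem_ball_self hr, hr'.trans inter_subset_left, ?_⟩
    have h1 : ball p r \ K = ball p r := by
      rw [sdiff_eq_left]
      exact disjoint_left.2 fun x hx hxK => (hr' hx).2 hxK
    rw [h1]
    exact (convex_ball p r).isPathConnected ⟨p, mem_ball_self hr⟩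

theorem ball_pc (hK : IsClosed K) (h : ∀ p ∈ K, ∀ O ∈ 𝓝 p, ∃ U : Set E, IsOpen U ∧ p ∈ U ∧
    U ⊆ O ∧ IsPathConnected (U \ K)) (c : E) (r : ℝ) (hr : 0 < r) :
    IsPathConnected (ball c r \ K) := by
  have h' := local_pc hK h
  choose! U hU hpU hUB hUpc using fun (p : E) (hp : p ∈ ball c r) =>
    h' p (isOpen_ball.mem_nhds hp)
  have hne : ∀ W : Set E, IsOpen W → W.Nonempty → (W \ K).Nonempty := by
    rintro W hW ⟨x, hx⟩
    obtain ⟨U', -, -, h1, h2⟩ := h' x (hW.mem_nhds hx)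
    obtain ⟨y, hy⟩ := h2.nonempty
    exact ⟨y, h1 hy.1, hy.2⟩
  have hcc : c ∈ ball c r := mem_ball_self hr
  rw [isPathConnected_iff]
  refine ⟨hne _ isOpen_ball ⟨c, hcc⟩, ?_⟩
  intro x hx y hy
  have key : ∀ a ∈ U x \ K, ∀ b ∈ U y \ K, JoinedIn (ball c r \ K) a b := by
    refine IsPreconnected.induction₂' (convex_ball c r).isPreconnected
      (fun p q => ∀ a ∈ U p \ K, ∀ b ∈ U q \ K, JoinedIn (ball c r \ K) a b) ?_ ?_ hx.1 hy.1
    · intro p hp
      have h1 : ∀ᶠ q in 𝓝[ball c r] p, q ∈ U p ∩ ball c r :=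
        Filter.inter_mem (mem_nhdsWithin_of_mem_nhds ((hU p hp).mem_nhds (hpU p hp)))
          self_mem_nhdsWithin
      filter_upwards [h1] with q hq
      obtain ⟨d, hd⟩ := hne (U p ∩ U q) ((hU p hp).inter (hU q hq.2)) ⟨q, hq.1, hpU q hq.2⟩
      have h2 : ∀ a ∈ U p \ K, JoinedIn (ball c r \ K) a d := fun a ha =>
        ((hUpc p hp).joinedIn a ha d ⟨hd.1.1, hd.2⟩).mono
          (sdiff_subset_sdiff_left (hUB p hp))
      have h3 : ∀ b ∈ U q \ K, JoinedIn (ball c r \ K) b d := fun b hb =>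
        ((hUpc q hq.2).joinedIn b hb d ⟨hd.1.2, hd.2⟩).mono
          (sdiff_subset_sdiff_left (hUB q hq.2))
      exact ⟨fun a ha b hb => (h2 a ha).trans (h3 b hb).symm,
        fun a ha b hb => (h3 a ha).trans (h2 b hb).symm⟩
    · intro p q q' hp hq hq' h1 h2 a ha b hb
      obtain ⟨d, hd⟩ := (hUpc q hq).nonempty
      exact (h1 a ha d hd).trans (h2 d hd b hb)
  exact key x ⟨hpU x hx.1, hx.2⟩ y ⟨hpU y hy.1, hy.2⟩

variable {V : Type} [NormedAddCommGroup V] [NormedSpace ℝ V] (T : Tub K V)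
variable {y₀ : Off K} {R : ∀ y : Off K, Hom K y₀ y → Hom K y₀ y → Prop}

/-- **The van Kampen argument.** -/
theorem vk (hK : IsClosed K) (hR : RelP K y₀ R) {z : ℂ × V}
    (hz : z ∈ {ℓ : ℂ | ℓ.re < T.κ} ×ˢ T.P) {y₁ : Off K} (hy₁ : T.Q z = y₁) {m : Path y₁ y₁}
    (hm : T.IsMer z 1 m) (h : ∀ g : Hom K y₀ y₁, R y₁ (g.trans (cl m)) g) (y : Off K)
    (g g' : Hom K y₀ y) : R y g g' := by
  induction g using Path.Homotopic.Quotient.ind with | mk w =>
  induction g' using Path.Homotopic.Quotient.ind with | mk w' =>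
  refine all_rel hR (ball_pc hK fun p hp O hO => T.pc hp hO) ?_ y w w'
  intro p
  by_cases hp : p ∈ K
  · obtain ⟨U, hU, hpU, hG⟩ := T.good hR hz hy₁ hm h hp
    obtain ⟨r, hr, hr'⟩ := Metric.mem_nhds_iff.1 (hU.mem_nhds hpU)
    exact ⟨r, hr, hG.mono hr'⟩
  · obtain ⟨r, hr, hr'⟩ := Metric.mem_nhds_iff.1 (hK.isOpen_compl.mem_nhds hp)
    refine ⟨r, hr, ?_⟩
    intro y y' b b' hb hb' g
    let a : Path (y : E) (y' : E) := b.map continuous_subtype_val
    let a' : Path (y : E) (y' : E) := b'.map continuous_subtype_val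
    have h1 : cl b = cl b' := lift_hom (q := fun x : E => x) (convex_ball p r)
      continuous_id.continuousOn (fun x hx => hr' hx) a a' b b' hb hb' (fun t => rfl)
      fun t => rfl
    rw [h1]
    exact hR.refl _ _

end

end Pool.Agent.Helper34.S5
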