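import Pool.Agent.Helper18.BI.S5.StA
import Pool.Agent.Helper34.BI5.VK5

/-!
# Project BI, stage 5: the crossing lemma (statement)

`StCRL` (helper27) and `StEX` give `StDRIFT` (module `M_DRIFT`, helper34).
-/

set_option autoImplicit false

open scoped Manifold ContDiff Topology ComplexConjugate
open Set Pool.Agent.Helper65.Barb Pool.Agent.Helper18.BI
open Pool.Agent.Helper70.BI (I4 IsW)
open Pool.Agent.Helper27.H (ArcD)
open Pool.Agent.Helper18.BI.H
open Pool.Agent.Helper18.BI.R
open Pool.Agent.Helper18.BI.S5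

namespace Pool.Agent.Helper34.S5

/-- `h` is a free homotopy of spheres off the fixed cuff; `w` is the track of the base point. -/
structure FH (F : R4 → R4) (h : ℝ × R3 → R4) (w : ℝ → R4) : Prop where
  cont : ContinuousOn h (Icc (0 : ℝ) 1 ×ˢ S2)
  off : ∀ u ∈ Icc (0 : ℝ) 1, ∀ m ∈ S2, h (u, m) ∉ F '' sph 1
  track : ∀ u ∈ Icc (0 : ℝ) 1, h (u, (1, 0)) = w u

/-- concatenation of paths -/
noncomputable def pcat (w k : ℝ → R4) (u : ℝ) : R4 :=
  if u ≤ 1 / 2 then w (2 * u) else k (2 * u - 1)

/-- The half circle of radius `r` around the fixed cuff at the point `(1/2, (1,0) + v/(5|v|))` of `sph 1`, from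
`s = 1/2 + r` to `s = 1/2 - r`; it passes outside `sph 1` for `σ = 1` and inside `sph 1` for `σ = -1`:
`Gc c v = (1/2 + c.re, (1, 0) + ((1/5 + c.im) / |v|) • v)`. -/
noncomputable def hcirc (F : R4 → R4) (r : ℝ) (v : R3) (σ : ℝ) (u : ℝ) : R4 :=
  F (Gc (r * Complex.exp ((σ * Real.pi * u : ℝ) * Complex.I)) v)

/-- CRL (helper27).  The crossing lemma.  `w` is an arbitrary path from the base point `bp F` to the beginning of the two half
circles, `h` and `h'` are arbitrary free homotopies to the same sphere, with the tracks `w` followed by the outer half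
circle and `w` followed by the inner half circle: the classes of `h (0, ·)` and `h' (0, ·)` are equal up to `W`.
(The radius `r` may be as small as necessary and the direction `v` may be chosen.) -/
def StCRL : Prop :=
  ∀ F : R4 → R4, EmbOn I4 F SP → ∀ η > 0, ∃ r ∈ Ioo (0 : ℝ) η, ∃ v : R3, v ≠ 0 ∧
    ∀ (w : ℝ → R4) (h h' : ℝ × R3 → R4), w 0 = bp F → FH F h (pcat w (hcirc F r v 1)) →
      FH F h' (pcat w (hcirc F r v (-1))) → (∀ m ∈ S2, h (1, m) = h' (1, m)) →
      DR F (fun m => h (0, m)) (fun m => h' (0, m))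

end Pool.Agent.Helper34.S5
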