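import Pool.Agent.Helper18.BI.R.M_HEP
import Pool.Agent.Helper34.BI5.StB

/-!
# Transport of spheres along paths
-/

set_option autoImplicit false

open scoped Manifold ContDiff Topology ComplexConjugate
open Set Pool.Agent.Helper65.Barb Pool.Agent.Helper18.BI
open Pool.Agent.Helper70.BI (I4 IsW)
open Pool.Agent.Helper18.BI.R
open Pool.Agent.Helper18.BI.R.HEP (sg sg_cont sg_mem sg_one sg_base dbd)

namespace Pool.Agent.Helper34.S5

theorem base_mem : ((1, 0) : R3) ∈ S2 := by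
  show nsq ((1, 0) : R3) = 1
  simp [nsq]

/-- the sphere `a` with a collar around `(1, 0)` filled by the path `b` -/
noncomputable def fill (a : R3 → R4) (b : ℝ → R4) (m : R3) : R4 :=
  if 1 ≤ 2 * (1 - m.1) then a (sg (0, m)) else b (max (2 * (1 - m.1)) 0)

theorem sg0_mem {m : R3} (hm : m ∈ S2) : sg (0, m) ∈ S2 :=
  sg_mem (p := ((0 : ℝ), m)) ⟨⟨le_rfl, zero_le_one⟩, hm⟩

theorem fill_base (a : R3 → R4) (b : ℝ → R4) : fill a b (1, 0) = b 0 := by
  have h1 : ¬ (1 : ℝ) ≤ 2 * (1 - ((1, 0) : R3).1) := by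
    show ¬ (1 : ℝ) ≤ 2 * (1 - 1)
    norm_num
  unfold fill
  rw [if_neg h1]
  show b (max (2 * (1 - 1)) 0) = b 0
  norm_num

theorem fill_par {m : R3} (h : ¬ (1 : ℝ) ≤ 2 * (1 - m.1)) :
    max (2 * (1 - m.1)) 0 ∈ Icc (0 : ℝ) 1 := by
  rw [not_le] at h
  exact ⟨le_max_right _ _, max_le h.le zero_le_one⟩

theorem fill_off {K : Set R4} {a : R3 → R4} {b : ℝ → R4} (ha : ∀ m ∈ S2, a m ∉ K)
    (hb : ∀ t ∈ Icc (0 : ℝ) 1, b t ∉ K) {m : R3} (hm : m ∈ S2) : fill a b m ∉ K := by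
  unfold fill
  split_ifs with h
  · exact ha _ (sg0_mem hm)
  · exact hb _ (fill_par h)

theorem fill_congr {a a' : R3 → R4} {b b' : ℝ → R4} (ha : ∀ m ∈ S2, a m = a' m)
    (hb : ∀ t ∈ Icc (0 : ℝ) 1, b t = b' t) {m : R3} (hm : m ∈ S2) : fill a b m = fill a' b' m := by
  unfold fill
  split_ifs with h
  · exact ha _ (sg0_mem hm)
  · exact hb _ (fill_par h)

/-- joint continuity -/
theorem fill_cont {a : ℝ × R3 → R4} {b : ℝ × ℝ → R4}
    (ha : ContinuousOn a (Icc (0 : ℝ) 1 ×ˢ S2))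
    (hb : ContinuousOn b (Icc (0 : ℝ) 1 ×ˢ Icc (0 : ℝ) 1))
    (hab : ∀ u ∈ Icc (0 : ℝ) 1, a (u, (1, 0)) = b (u, 1)) :
    ContinuousOn (fun z : ℝ × R3 => fill (fun m => a (z.1, m)) (fun t => b (z.1, t)) z.2)
      (Icc (0 : ℝ) 1 ×ˢ S2) := by
  rw [continuousOn_iff_continuous_domRestrict]
  have hsg : Continuous fun x : ↥(Icc (0 : ℝ) 1 ×ˢ S2) => sg (0, (x : ℝ × R3).2) := by
    refine sg_cont.comp_continuous (f := fun x : ↥(Icc (0 : ℝ) 1 ×ˢ S2) => ((0 : ℝ), (x : ℝ × R3).2))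
      ?_ fun x => ⟨⟨le_rfl, zero_le_one⟩, x.2.2⟩
    fun_prop
  have hc : Continuous fun x : ↥(Icc (0 : ℝ) 1 ×ˢ S2) =>
      if 1 ≤ 2 * (1 - (x : ℝ × R3).2.1) then a ((x : ℝ × R3).1, sg (0, (x : ℝ × R3).2))
      else b ((x : ℝ × R3).1, min (max (2 * (1 - (x : ℝ × R3).2.1)) 0) 1) := by
    refine Continuous.if_le ?_ ?_ ?_ ?_ ?_
    · refine ha.comp_continuous ?_ fun x => ⟨x.2.1, sg0_mem x.2.2⟩
      exact (continuous_fst.comp continuous_subtype_val).prodMk hsg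
    · refine hb.comp_continuous ?_ fun x => ⟨x.2.1, ⟨le_min (le_max_right _ _) zero_le_one,
        min_le_right _ _⟩⟩
      fun_prop
    · fun_prop
    · fun_prop
    · intro x hx
      have h1 : sg (0, (x : ℝ × R3).2) = (1, 0) := by
        refine sg_base (p := ((0 : ℝ), (x : ℝ × R3).2)) ?_
        show (1 - 0 : ℝ) = 2 * (1 - (x : ℝ × R3).2.1)
        linarith
      rw [h1, hab _ x.2.1, ← hx]
      norm_num
  refine hc.congr fun x => ?_
  show _ = fill (fun m => a ((x : ℝ × R3).1, m)) (fun t => b ((x : ℝ × R3).1, t)) (x : ℝ × R3).2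
  unfold fill
  split_ifs with h
  · rfl
  · rw [min_eq_left (fill_par h).2]

section
variable {F : R4 → R4}

theorem FH.congr {h h' : ℝ × R3 → R4} {w w' : ℝ → R4} (hh : FH F h w)
    (e : ∀ u ∈ Icc (0 : ℝ) 1, ∀ m ∈ S2, h' (u, m) = h (u, m))
    (e' : ∀ u ∈ Icc (0 : ℝ) 1, w' u = w u) : FH F h' w' where
  cont := hh.cont.congr fun z hz => e z.1 hz.1 z.2 hz.2
  off u hu m hm := by
    rw [e u hu m hm]
    exact hh.off u hu m hm
  track u hu := by
    rw [e u hu _ base_mem, e' u hu]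
    exact hh.track u hu

open scoped Classical in
/-- **Transport.** -/
theorem transport {k : R3 → R4} {w : ℝ → R4} (hk : ContinuousOn k S2)
    (hw : ContinuousOn w (Icc (0 : ℝ) 1)) (h1 : w 1 = k (1, 0)) (hkK : ∀ m ∈ S2, k m ∉ F '' sph 1)
    (hwK : ∀ t ∈ Icc (0 : ℝ) 1, w t ∉ F '' sph 1) : ∃ h : ℝ × R3 → R4, FH F h w ∧
      (∀ m ∈ S2, h (1, m) = k m) ∧ ∀ m ∈ S2, h (0, m) = fill k w m := by
  let h : ℝ × R3 → R4 := fun p =>
    if (1 - p.1) ≤ 2 * (1 - p.2.1) then k (sg p) else w (1 - max ((1 - p.1) - 2 * (1 - p.2.1)) 0)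
  have hmx : ∀ p ∈ Icc (0 : ℝ) 1 ×ˢ S2,
      1 - max ((1 - p.1) - 2 * (1 - p.2.1)) 0 ∈ Icc (0 : ℝ) 1 := by
    intro p hp
    have h1 := dbd hp.2
    have h2 : 0 ≤ p.1 := hp.1.1
    have h3 : max ((1 - p.1) - 2 * (1 - p.2.1)) 0 ≤ 1 := max_le (by linarith) zero_le_one
    have h4 : 0 ≤ max ((1 - p.1) - 2 * (1 - p.2.1)) 0 := le_max_right _ _
    constructor <;> linarith
  refine ⟨h, ⟨?_, ?_, ?_⟩, ?_, ?_⟩
  · rw [continuousOn_iff_continuous_domRestrict]
    have hc : Continuous fun x : ↥(Icc (0 : ℝ) 1 ×ˢ S2) =>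
        if (1 - (x : ℝ × R3).1) ≤ 2 * (1 - (x : ℝ × R3).2.1) then k (sg x)
        else w (1 - max ((1 - (x : ℝ × R3).1) - 2 * (1 - (x : ℝ × R3).2.1)) 0) := by
      refine Continuous.if_le ?_ ?_ ?_ ?_ ?_
      · exact hk.comp_continuous (continuousOn_iff_continuous_domRestrict.mp sg_cont)
          (fun x => sg_mem x.2)
      · refine hw.comp_continuous ?_ (fun x => hmx x x.2)
        fun_prop
      · fun_prop
      · fun_prop
      · intro x hx
        rw [sg_base hx, ← h1]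
        congr 1
        rw [hx]
        simp
    exact hc
  · intro u hu m hm
    have hp : (u, m) ∈ Icc (0 : ℝ) 1 ×ˢ S2 := ⟨hu, hm⟩
    show (if (1 - u) ≤ 2 * (1 - m.1) then k (sg (u, m))
      else w (1 - max ((1 - u) - 2 * (1 - m.1)) 0)) ∉ F '' sph 1
    split_ifs
    · exact hkK _ (sg_mem hp)
    · exact hwK _ (hmx _ hp)
  · intro u hu
    show (if (1 - u) ≤ 2 * (1 - (1 : ℝ)) then k (sg (u, (1, 0)))
      else w (1 - max ((1 - u) - 2 * (1 - 1)) 0)) = w u
    split_ifs with h2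
    · have h3 : u = 1 := le_antisymm hu.2 (by linarith)
      rw [h3, sg_one base_mem, h1]
    · rw [max_eq_left (by linarith [hu.2])]
      congr 1
      ring
  · intro m hm
    show (if (1 - (1 : ℝ)) ≤ 2 * (1 - m.1) then k (sg (1, m)) else _) = k m
    rw [if_pos (by linarith [(dbd hm).1]), sg_one hm]
  · intro m hm
    show (if (1 - (0 : ℝ)) ≤ 2 * (1 - m.1) then k (sg (0, m))
      else w (1 - max ((1 - 0) - 2 * (1 - m.1)) 0)) = fill k w m
    unfold fill
    rw [sub_zero]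
    split_ifs with h2
    · rfl
    · rw [not_le] at h2
      have h3 := (dbd hm).1
      rw [max_eq_left (by linarith), max_eq_left (by linarith)]
      congr 1
      ring

/-- concatenation of free homotopies -/
noncomputable def hcat (h h' : ℝ × R3 → R4) (z : ℝ × R3) : R4 :=
  if z.1 ≤ 1 / 2 then h (2 * z.1, z.2) else h' (2 * z.1 - 1, z.2)

theorem hcat_zero (h h' : ℝ × R3 → R4) (m : R3) : hcat h h' (0, m) = h (0, m) := by
  show (if (0 : ℝ) ≤ 1 / 2 then h (2 * 0, m) else _) = _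
  rw [if_pos (by norm_num), mul_zero]

theorem hcat_one (h h' : ℝ × R3 → R4) (m : R3) : hcat h h' (1, m) = h' (1, m) := by
  show (if (1 : ℝ) ≤ 1 / 2 then _ else h' (2 * 1 - 1, m)) = _
  rw [if_neg (by norm_num)]
  norm_num

theorem fh_cat {h h' : ℝ × R3 → R4} {w w' : ℝ → R4} (hh : FH F h w) (hh' : FH F h' w')
    (e : ∀ m ∈ S2, h (1, m) = h' (0, m)) : FH F (hcat h h') (pcat w w') where
  cont := by
    rw [continuousOn_iff_continuous_domRestrict]
    have hc : Continuous fun x : ↥(Icc (0 : ℝ) 1 ×ˢ S2) =>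
        if (x : ℝ × R3).1 ≤ 1 / 2 then h (max 0 (min (2 * (x : ℝ × R3).1) 1), (x : ℝ × R3).2)
        else h' (max 0 (min (2 * (x : ℝ × R3).1 - 1) 1), (x : ℝ × R3).2) := by
      refine Continuous.if_le ?_ ?_ ?_ ?_ ?_
      · refine hh.cont.comp_continuous (by fun_prop) fun x => ⟨⟨le_max_left _ _,
          max_le zero_le_one (min_le_right _ _)⟩, x.2.2⟩
      · refine hh'.cont.comp_continuous (by fun_prop) fun x => ⟨⟨le_max_left _ _,
          max_le zero_le_one (min_le_right _ _)⟩, x.2.2⟩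
      · fun_prop
      · fun_prop
      · intro x hx
        rw [hx]
        norm_num
        exact e _ x.2.2
    refine hc.congr fun x => ?_
    obtain ⟨⟨u, m⟩, hu, hm⟩ := x
    have hu' : 0 ≤ u ∧ u ≤ 1 := hu
    show (if u ≤ 1 / 2 then h (max 0 (min (2 * u) 1), m) else h' (max 0 (min (2 * u - 1) 1), m))
      = (if u ≤ 1 / 2 then h (2 * u, m) else h' (2 * u - 1, m))
    split_ifs with h1
    · rw [min_eq_left (by linarith), max_eq_right (by linarith [hu'.1])]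
    · rw [not_le] at h1
      rw [min_eq_left (by linarith [hu'.2]), max_eq_right (by linarith)]
  off u hu m hm := by
    show (if u ≤ 1 / 2 then h (2 * u, m) else h' (2 * u - 1, m)) ∉ _
    split_ifs with h1
    · exact hh.off _ ⟨by linarith [hu.1], by linarith⟩ m hm
    · rw [not_le] at h1
      exact hh'.off _ ⟨by linarith, by linarith [hu.2]⟩ m hm
  track u hu := by
    show (if u ≤ 1 / 2 then h (2 * u, (1, 0)) else h' (2 * u - 1, (1, 0)))
      = (if u ≤ 1 / 2 then w (2 * u) else w' (2 * u - 1))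
    split_ifs with h1
    · exact hh.track _ ⟨by linarith [hu.1], by linarith⟩
    · rw [not_le] at h1
      exact hh'.track _ ⟨by linarith, by linarith [hu.2]⟩

/-- based homotopic -/
def BH (F : R4 → R4) (f f' : R3 → R4) : Prop :=
  ∃ H : ℝ × R3 → R4, FH F H (fun _ => bp F) ∧ (∀ m ∈ S2, H (0, m) = f m) ∧
    ∀ m ∈ S2, H (1, m) = f' m

theorem const_mem {t : ℝ} (ht : t ∈ Icc (0 : ℝ) 1) {u : ℝ} (hu : u ∈ Icc (0 : ℝ) 1) :
    u * t ∈ Icc (0 : ℝ) 1 :=
  ⟨mul_nonneg hu.1 ht.1, mul_le_one₀ hu.2 ht.1 ht.2⟩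

/-- a based sphere and the sphere with a constant collar -/
theorem bh_fill_const {f : R3 → R4} (hf : ContinuousOn f S2) (h0 : f (1, 0) = bp F)
    (hK : ∀ m ∈ S2, f m ∉ F '' sph 1) : BH F (fill f (fun _ => bp F)) f := by
  obtain ⟨h, h1, h2, h3⟩ := transport (F := F) (k := f) (w := fun _ => bp F) hf continuousOn_const
    h0.symm hK (fun t _ => by rw [← h0]; exact hK _ base_mem)
  exact ⟨h, h1, h3, h2⟩

/-- the sphere with constant collar and the end of a free homotopy with the track in the collar -/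
theorem bh_fill_track {h : ℝ × R3 → R4} {w : ℝ → R4} (hh : FH F h w)
    (hw : ContinuousOn w (Icc (0 : ℝ) 1)) (h0 : w 0 = bp F)
    (hwK : ∀ t ∈ Icc (0 : ℝ) 1, w t ∉ F '' sph 1) :
    BH F (fill (fun m => h (0, m)) (fun _ => bp F)) (fill (fun m => h (1, m)) w) := by
  have hb : ContinuousOn (fun z : ℝ × ℝ => w (z.1 * z.2)) (Icc (0 : ℝ) 1 ×ˢ Icc (0 : ℝ) 1) :=
    hw.comp (Continuous.continuousOn (by fun_prop)) fun z hz => const_mem hz.2 hz.1
  refine ⟨fun z => fill (fun m => h (z.1, m)) (fun t => w (z.1 * t)) z.2, ⟨?_, ?_, ?_⟩, ?_, ?_⟩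
  · refine fill_cont (a := h) (b := fun z => w (z.1 * z.2)) hh.cont hb ?_
    intro u hu
    show h (u, (1, 0)) = w (u * 1)
    rw [mul_one]
    exact hh.track u hu
  · intro u hu m hm
    exact fill_off (hh.off u hu) (fun t ht => hwK _ (const_mem ht hu)) hm
  · intro u hu
    show fill (fun m => h (u, m)) (fun t => w (u * t)) (1, 0) = bp F
    rw [fill_base]
    show w (u * 0) = bp F
    rw [mul_zero, h0]
  · intro m hm
    refine fill_congr (fun _ _ => rfl) (fun t _ => ?_) hm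
    show w (0 * t) = bp F
    rw [zero_mul, h0]
  · intro m hm
    refine fill_congr (fun _ _ => rfl) (fun t _ => ?_) hm
    show w (1 * t) = w t
    rw [one_mul]

/-- homotopic collars -/
theorem bh_fill_htpy {k : R3 → R4} {P : ℝ × ℝ → R4} (hk : ContinuousOn k S2)
    (hkK : ∀ m ∈ S2, k m ∉ F '' sph 1)
    (hP : ContinuousOn P (Icc (0 : ℝ) 1 ×ˢ Icc (0 : ℝ) 1))
    (hPK : ∀ u ∈ Icc (0 : ℝ) 1, ∀ t ∈ Icc (0 : ℝ) 1, P (u, t) ∉ F '' sph 1)
    (h0 : ∀ u ∈ Icc (0 : ℝ) 1, P (u, 0) = bp F)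
    (h1 : ∀ u ∈ Icc (0 : ℝ) 1, P (u, 1) = k (1, 0)) :
    BH F (fill k (fun t => P (0, t))) (fill k (fun t => P (1, t))) := by
  refine ⟨fun z => fill k (fun t => P (z.1, t)) z.2, ⟨?_, ?_, ?_⟩, fun _ _ => rfl, fun _ _ => rfl⟩
  · refine fill_cont (a := fun z => k z.2) (b := P) (hk.comp continuousOn_snd fun z hz => hz.2)
      hP fun u hu => (h1 u hu).symm
  · intro u hu m hm
    exact fill_off hkK (fun t ht => hPK u hu t ht) hm
  · intro u hu
    show fill k (fun t => P (u, t)) (1, 0) = bp F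
    rw [fill_base]
    exact h0 u hu

end

end Pool.Agent.Helper34.S5
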