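import Pool.Agent.Helper18.BI.R.M_REL4
import Pool.Agent.Helper34.BI5.VK6

/-!
# `DR` is an equivalence relation and contains based homotopy
-/

set_option autoImplicit false

open scoped Manifold ContDiff Topology ComplexConjugate
open Set Pool.Agent.Helper65.Barb Pool.Agent.Helper18.BI
open Pool.Agent.Helper70.BI (I4 IsW)
open Pool.Agent.Helper27.H (ArcD K3 HatOk bfin_mid)
open Pool.Agent.Helper18.BI.H
open Pool.Agent.Helper18.BI.R
open Pool.Agent.Helper18.BI.S5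

namespace Pool.Agent.Helper34.S5

theorem mm_bd {q s : ℝ} (h : q = 0 ∨ q = 1 ∨ s = 9 / 20 ∨ s = 11 / 20) : mm q s = (1, 0) := by
  rcases h with h | h | h | h
  · exact mm_ends q s (Or.inl h)
  · exact mm_ends q s (Or.inr h)
  · exact mm_edge q s (Or.inl h.le)
  · exact mm_edge q s (Or.inr h.ge)

/-- the facts about the arc datum of `F ∘ sq ε` -/
theorem hatD_facts {F : R4 → R4} {δ ε : ℝ} {D : ArcD} (h : HatD F δ ε D) :
    D.m₀ = 9 / 20 ∧ D.m₁ = 11 / 20 ∧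
      ∀ s ∈ Icc (3 / 10 : ℝ) (7 / 10), D.c s = F (sq ε (s, ((73 / 100 : ℝ), 0))) := by
  obtain ⟨T, T', -, -, -, hD⟩ := h
  refine ⟨hD.m₀, hD.m₁, fun s hs => ?_⟩
  have hs' : s ∈ Icc D.s₀ D.s₁ := ⟨by linarith [hs.1, hD.s₀.2], by linarith [hs.2, hD.s₁.1]⟩
  rw [← D.core s hs', hD.J]
  show F (sq ε (s, Pool.Agent.Helper27.H.z0 s + 0)) = _
  rw [add_zero]
  unfold Pool.Agent.Helper27.H.z0
  rw [bfin_mid hs]
  have e : (1 - 27 / 100 : ℝ) • Pool.Agent.Helper27.BI.e1 = (((73 / 100 : ℝ), 0) : R3) := by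
    show (1 - 27 / 100 : ℝ) • (((1 : ℝ), (0 : ℂ)) : R3) = _
    rw [Prod.smul_mk, smul_zero, smul_eq_mul]
    norm_num
  rw [e]

/-- a based sphere off the fixed cuff -/
structure Bs (F : R4 → R4) (g : R3 → R4) : Prop where
  cont : ContinuousOn g S2
  off : ∀ m ∈ S2, g m ∉ F '' sph 1
  base : g (1, 0) = bp F

theorem FH.bs {F : R4 → R4} {h : ℝ × R3 → R4} {w : ℝ → R4} (hh : FH F h w) (h0 : w 0 = bp F) :
    Bs F (fun m => h (0, m)) where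
  cont := hh.cont.comp (Continuous.continuousOn (by fun_prop)) fun m hm =>
    ⟨⟨le_rfl, zero_le_one⟩, hm⟩
  off m hm := hh.off 0 ⟨le_rfl, zero_le_one⟩ m hm
  base := by rw [hh.track 0 ⟨le_rfl, zero_le_one⟩, h0]

theorem isCompact_K {F : R4 → R4} (hF : EmbOn I4 F SP) : IsCompact (F '' sph 1) := by
  have h1 : IsCompact (sph 1) := by
    refine X2.isCompact_SP.of_isClosed_subset ?_ sph1_subset_SP
    exact (isClosed_eq continuous_fst continuous_const).inter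
      (isClosed_eq (continuous_rsq 1) continuous_const)
  refine h1.image_of_continuousOn fun p hp => ?_
  exact ((hF.1 p (sph1_subset_SP hp)).contMDiffAt.continuousAt).continuousWithinAt

section
variable {F : R4 → R4} (hF : EmbOn I4 F SP)
include hF

/-- the shifted square is off the wall -/
theorem exists_margin {X : Type} [TopologicalSpace X] {C : Set X} {f : X → R4} (hC : IsCompact C)
    (hf : ContinuousOn f C) (h : ∀ x ∈ C, f x ∉ F '' sph 1) : ∃ κ > 0, ∃ ε₀ > 0,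
      ∀ (δ : ℝ), ∀ ε ∈ Ioo 0 ε₀, ∀ D : ArcD, HatD F δ ε D →
      (∀ x, x ∉ D.U → ∃ y ∈ F '' sph 1, dist x y < κ) → ∀ x ∈ C, ∀ s ∈ Icc D.m₀ D.m₁,
        f x + (D.c s - bp F) ∈ D.U := by
  obtain ⟨κ, h1, hκ⟩ := ((margin hC hf (isCompact_K hF) h).and self_mem_nhdsWithin).exists
  have hκ : 0 < κ := hκ
  obtain ⟨ε₀, hε₀, h2⟩ := m_NRB F hF κ hκ
  refine ⟨κ, hκ, ε₀, hε₀, fun δ ε hε D hD hw x hx s hs => ?_⟩
  obtain ⟨hm₀, hm₁, hc⟩ := hatD_facts hD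
  rw [hm₀, hm₁] at hs
  have hs' : s ∈ Icc (3 / 10 : ℝ) (7 / 10) := ⟨by linarith [hs.1], by linarith [hs.2]⟩
  by_contra hn
  obtain ⟨y, hy, hd⟩ := hw _ hn
  have h3 := h1 x hx y hy
  have h4 := h2 ε hε s hs'
  rw [← hc s hs'] at h4
  have h5 : dist (f x) (f x + (D.c s - bp F)) ≤ κ := by
    rw [dist_self_add_right, ← dist_eq_norm]
    exact h4
  have h6 := dist_triangle (f x) (f x + (D.c s - bp F)) y
  linarith

/-- **DR contains based homotopy.** -/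
theorem dr_of_bh (hHCL : StHCL) {f f' : R3 → R4} (hB : BH F f f') : DR F f f' := by
  obtain ⟨H, hH, h0, h1⟩ := hB
  obtain ⟨κ, hκ, ε₀, hε₀, hM⟩ := exists_margin hF (isCompact_Icc.prod isCompact_S2) hH.cont
    fun z hz => hH.off z.1 hz.1 z.2 hz.2
  refine ⟨κ, hκ, 1, one_pos, fun δ _ => ⟨ε₀, hε₀, fun ε hε D hD hw W χ χ' hW hχ hχ' => ?_⟩⟩
  obtain ⟨hm₀, hm₁, hc⟩ := hatD_facts hD
  obtain ⟨-, -, -, h4, -, -, h7⟩ := hHCL D (bp F)
  refine h7 W _ χ χ' hW (h4 _ _ χ hχ ?_) hχ'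
  refine ⟨fun z => H (z.1, mm z.2.1 z.2.2) + (D.c z.2.2 - bp F), ?_, ?_, ?_⟩
  · refine ContinuousOn.add ?_ ?_
    · refine hH.cont.comp (f := fun z : ℝ × ℝ × ℝ => (z.1, mm z.2.1 z.2.2)) ?_ ?_
      · exact (continuous_fst.prodMk (continuous_mm.comp continuous_snd)).continuousOn
      · intro z hz
        exact ⟨hz.1, mm_S2 _ _⟩
    · exact ((D.smooth.continuous.comp (by fun_prop)).sub continuous_const).continuousOn
  · intro q _ s _
    show H (0, mm q s) + (D.c s - bp F) = shp D (bp F) _ q s ∧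
      H (1, mm q s) + (D.c s - bp F) = shp D (bp F) _ q s
    rw [h0 _ (mm_S2 q s), h1 _ (mm_S2 q s)]
    exact ⟨rfl, rfl⟩
  · intro u hu q hq s hs
    refine ⟨hM δ ε hε D hD hw (u, mm q s) ⟨hu, mm_S2 q s⟩ s hs, fun hb => ?_⟩
    rw [hm₀, hm₁] at hb
    show H (u, mm q s) + (D.c s - bp F) = D.c s
    rw [mm_bd hb, hH.track u hu]
    abel

omit hF in
theorem dr_symm (hHCL : StHCL) (hT2 : StT2) (hCI : StCI) {f f' : R3 → R4} (h : DR F f f') :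
    DR F f' f := by
  obtain ⟨κ, hκ, δ₀, hδ₀, h⟩ := h
  refine ⟨κ, hκ, δ₀, hδ₀, fun δ hδ => ?_⟩
  obtain ⟨ε₀, hε₀, h⟩ := h δ hδ
  refine ⟨ε₀, hε₀, fun ε hε D hD hw W χ χ' hW hχ hχ' => ?_⟩
  obtain ⟨-, -, -, -, -, h6, -⟩ := hHCL D (bp F)
  exact rw_symm hT2 hCI hW (h6 _ _ hχ') (h ε hε D hD hw W χ' χ hW hχ' hχ)

theorem dr_trans (hHCL : StHCL) (hT2 : StT2) (hCI : StCI) (hEX : StEX) {f g f' : R3 → R4}
    (hg : Bs F g) (h : DR F f g) (h' : DR F g f') : DR F f f' := by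
  obtain ⟨κ, hκ, δ₀, hδ₀, h⟩ := h
  obtain ⟨κ', hκ', δ₀', hδ₀', h'⟩ := h'
  obtain ⟨κ'', hκ'', ε₀'', hε₀'', hM⟩ := exists_margin hF isCompact_S2 hg.cont hg.off
  refine ⟨min κ (min κ' κ''), by positivity, min δ₀ δ₀', by positivity, fun δ hδ => ?_⟩
  obtain ⟨ε₀, hε₀, h⟩ := h δ ⟨hδ.1, lt_of_lt_of_le hδ.2 (min_le_left _ _)⟩
  obtain ⟨ε₀', hε₀', h'⟩ := h' δ ⟨hδ.1, lt_of_lt_of_le hδ.2 (min_le_right _ _)⟩
  refine ⟨min ε₀ (min ε₀' ε₀''), by positivity, fun ε hε D hD hw W χ χ' hW hχ hχ' => ?_⟩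
  have hw1 : ∀ x, x ∉ D.U → ∃ y ∈ F '' sph 1, dist x y < κ := fun x hx => by
    obtain ⟨y, hy, hd⟩ := hw x hx
    exact ⟨y, hy, lt_of_lt_of_le hd (min_le_left _ _)⟩
  have hw2 : ∀ x, x ∉ D.U → ∃ y ∈ F '' sph 1, dist x y < κ' := fun x hx => by
    obtain ⟨y, hy, hd⟩ := hw x hx
    exact ⟨y, hy, lt_of_lt_of_le hd ((min_le_right _ _).trans (min_le_left _ _))⟩
  have hw3 : ∀ x, x ∉ D.U → ∃ y ∈ F '' sph 1, dist x y < κ'' := fun x hx => by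
    obtain ⟨y, hy, hd⟩ := hw x hx
    exact ⟨y, hy, lt_of_lt_of_le hd ((min_le_right _ _).trans (min_le_right _ _))⟩
  have hε1 : ε ∈ Ioo 0 ε₀ := ⟨hε.1, lt_of_lt_of_le hε.2 (min_le_left _ _)⟩
  have hε2 : ε ∈ Ioo 0 ε₀' :=
    ⟨hε.1, lt_of_lt_of_le hε.2 ((min_le_right _ _).trans (min_le_left _ _))⟩
  have hε3 : ε ∈ Ioo 0 ε₀'' :=
    ⟨hε.1, lt_of_lt_of_le hε.2 ((min_le_right _ _).trans (min_le_right _ _))⟩
  obtain ⟨hm₀, hm₁, hc⟩ := hatD_facts hD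
  obtain ⟨-, -, -, -, -, h6, -⟩ := hHCL D (bp F)
  have hsq : SqOK D (shp D (bp F) (fun q s => g (mm q s))) := by
    refine ⟨?_, ?_, ?_⟩
    · refine ContinuousOn.add ?_ ?_
      · exact hg.cont.comp continuous_mm.continuousOn fun z _ => mm_S2 _ _
      · exact ((D.smooth.continuous.comp (by fun_prop)).sub continuous_const).continuousOn
    · intro q hq s hs
      exact hM δ ε hε3 D hD hw3 _ (mm_S2 q s) s hs
    · intro q hq s hs hb
      rw [hm₀, hm₁] at hb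
      show g (mm q s) + (D.c s - bp F) = D.c s
      rw [mm_bd hb, hg.base]
      abel
  obtain ⟨ψ, hψ⟩ := hEX D (bp F) (fun q s => g (mm q s)) hsq
  exact rw_trans hT2 hCI hW (h6 _ _ hχ) (h' ε hε2 D hD hw2 W ψ χ' hW hψ hχ')
    (h ε hε1 D hD hw1 W χ ψ hW hχ hψ)

end

end Pool.Agent.Helper34.S5
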