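import Mathlib

/-!
# Relations on homotopy classes of paths in the complement of a closed set

An equivalence relation on the homotopy classes of paths from `y₀` in the complement of `K` which is invariant
under right composition and trivial for short paths relates all paths with the same ends, if balls minus `K` are path
connected.
-/

set_option autoImplicit false

open Set Metric unitInterval
open scoped Topology

namespace Pool.Agent.Helper34.S5

/-- the complement -/
abbrev Off {E : Type} (K : Set E) : Type := {x : E // x ∉ K}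

/-- homotopy classes of paths in the complement -/
abbrev Hom {E : Type} [TopologicalSpace E] (K : Set E) (x y : Off K) : Type :=
  Path.Homotopic.Quotient x y

/-- the class of a path -/
abbrev cl {E : Type} [TopologicalSpace E] {K : Set E} {x y : Off K} (p : Path x y) : Hom K x y :=
  Path.Homotopic.Quotient.mk p

/-- equivalence relation on homotopy classes of paths from `y₀`, invariant under right composition -/
structure RelP {E : Type} [TopologicalSpace E] (K : Set E) (y₀ : Off K)
    (R : ∀ y : Off K, Hom K y₀ y → Hom K y₀ y → Prop) : Prop where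
  refl : ∀ y g, R y g g
  symm : ∀ y g g', R y g g' → R y g' g
  trans : ∀ y g g' g'', R y g g' → R y g' g'' → R y g g''
  comp : ∀ (y y' : Off K) (g g' : Hom K y₀ y) (b : Hom K y y'), R y g g' →
    R y' (g.trans b) (g'.trans b)

/-- two paths in a good set with the same ends are equivalent after any path from `y₀` -/
def Good {E : Type} [TopologicalSpace E] (K : Set E) (y₀ : Off K)
    (R : ∀ y : Off K, Hom K y₀ y → Hom K y₀ y → Prop) (V : Set E) : Prop :=
  ∀ (y y' : Off K) (b b' : Path y y'), (∀ t, (b t : E) ∈ V) → (∀ t, (b' t : E) ∈ V) →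
    ∀ g : Hom K y₀ y, R y' (g.trans (cl b)) (g.trans (cl b'))

theorem Good.mono {E : Type} [TopologicalSpace E] {K : Set E} {y₀ : Off K}
    {R : ∀ y : Off K, Hom K y₀ y → Hom K y₀ y → Prop} {V V' : Set E} (h : Good K y₀ R V)
    (hV : V' ⊆ V) : Good K y₀ R V' :=
  fun y y' b b' hb hb' g => h y y' b b' (fun t => hV (hb t)) (fun t => hV (hb' t)) g

section
variable {E : Type} [NormedAddCommGroup E] {K : Set E}

theorem exists_off (hPC : ∀ (c : E) (r : ℝ), 0 < r → IsPathConnected (ball c r \ K)) (c : E)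
    {r : ℝ} (hr : 0 < r) : ∃ y : Off K, (y : E) ∈ ball c r := by
  obtain ⟨y, hy⟩ := (hPC c r hr).nonempty
  exact ⟨⟨y, hy.2⟩, hy.1⟩

theorem exists_path (hPC : ∀ (c : E) (r : ℝ), 0 < r → IsPathConnected (ball c r \ K)) (c : E)
    {r : ℝ} (hr : 0 < r) (y y' : Off K) (hy : (y : E) ∈ ball c r) (hy' : (y' : E) ∈ ball c r) :
    ∃ b : Path y y', ∀ t, (b t : E) ∈ ball c r := by
  obtain ⟨p, hp⟩ := (hPC c r hr).joinedIn (y : E) ⟨hy, y.2⟩ (y' : E) ⟨hy', y'.2⟩
  refine ⟨⟨⟨fun t => ⟨p t, (hp t).2⟩, ?_⟩, ?_, ?_⟩, fun t => (hp t).1⟩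
  · exact p.continuous.subtype_mk _
  · exact Subtype.ext p.source
  · exact Subtype.ext p.target

variable {y₀ : Off K} {R : ∀ y : Off K, Hom K y₀ y → Hom K y₀ y → Prop}

/-- the data of a grid -/
structure Grid (K : Set E) (y₀ y : Off K) (R : ∀ y : Off K, Hom K y₀ y → Hom K y₀ y → Prop) where
  δ : ℝ
  N : ℕ
  h : ℕ → ℕ → E
  p : ℕ → ℕ → Off K
  b : ∀ i j, Path (p i j) (p i (j + 1))
  c : ∀ i j, Path (p i j) (p (i + 1) j)
  s : ∀ i, Path y₀ (p i 0)
  e : ∀ i, Path (p i N) y
  hb : ∀ i j t, (b i j t : E) ∈ ball (h i j) (δ / 2)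
  hc : ∀ i j t, (c i j t : E) ∈ ball (h i j) (δ / 2)
  hs : ∀ i t, (s i t : E) ∈ ball (y₀ : E) (δ / 2)
  he : ∀ i t, (e i t : E) ∈ ball (y : E) (δ / 2)
  h1 : ∀ i j, dist (h i (j + 1)) (h i j) < δ / 8
  h2 : ∀ i j, dist (h (i + 1) j) (h i j) < δ / 8
  h3 : ∀ i, h i 0 = y₀
  h4 : ∀ i, h i N = y
  pos : 0 < δ
  good : ∀ i j, Good K y₀ R (ball (h i j) δ)

theorem cast_trans {x y z x' : Off K} (P : Hom K x y) (Q : Hom K y z) (hx : x' = x) :
    Path.Homotopic.Quotient.trans (P.cast hx rfl) Q
      = Path.Homotopic.Quotient.cast (P.trans Q) hx rfl := by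
  subst hx
  rw [Path.Homotopic.Quotient.cast_rfl_rfl, Path.Homotopic.Quotient.cast_rfl_rfl]

theorem trans_cast {x y z z' : Off K} (P : Hom K x y) (Q : Hom K y z) (hz : z' = z) :
    Path.Homotopic.Quotient.trans P (Q.cast rfl hz)
      = Path.Homotopic.Quotient.cast (P.trans Q) rfl hz := by
  subst hz
  rw [Path.Homotopic.Quotient.cast_rfl_rfl, Path.Homotopic.Quotient.cast_rfl_rfl]

theorem subpath_trans {x y : Off K} (v : Path x y) (t₀ t₁ t₂ : I) :
    Path.Homotopic.Quotient.trans (cl (v.subpath t₀ t₁)) (cl (v.subpath t₁ t₂))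
      = cl (v.subpath t₀ t₂) := by
  rw [← Path.Homotopic.Quotient.mk_trans, Path.Homotopic.Quotient.eq]
  exact ⟨Path.Homotopy.subpathTransSubpath v t₀ t₁ t₂⟩

theorem subpath_const {x y : Off K} (v : Path x y) (t₀ t₁ : I) (h : t₀ = t₁) (u : I) :
    (v.subpath t₀ t₁) u = v t₁ := by
  subst h
  rw [Path.subpath_self]
  rfl

namespace Grid

variable {y : Off K} (G : Grid K y₀ y R)

/-- the rows -/
noncomputable def row (i : ℕ) : ∀ j, Hom K (G.p i 0) (G.p i j)
  | 0 => Path.Homotopic.Quotient.refl _
  | j + 1 => (row i j).trans (cl (G.b i j))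

theorem mem_trans {x y z : Off K} {V : Set E} (b : Path x y) (c : Path y z)
    (hb : ∀ t, (b t : E) ∈ V) (hc : ∀ t, (c t : E) ∈ V) (t : I) : ((b.trans c) t : E) ∈ V := by
  rw [Path.trans_apply]
  split_ifs
  · exact hb _
  · exact hc _

theorem square (i j : ℕ) (g : Hom K y₀ (G.p i j)) :
    R _ (g.trans ((cl (G.b i j)).trans (cl (G.c i (j + 1)))))
      (g.trans ((cl (G.c i j)).trans (cl (G.b (i + 1) j)))) := by
  have hp := G.pos
  refine G.good i j _ _ ((G.b i j).trans (G.c i (j + 1))) ((G.c i j).trans (G.b (i + 1) j)) ?_ ?_ g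
  · refine mem_trans _ _ (fun t => ball_subset_ball (by linarith) (G.hb i j t)) fun t => ?_
    have h1 := G.hc i (j + 1) t
    have h2 := G.h1 i j
    rw [mem_ball] at h1 ⊢
    linarith [dist_triangle (G.c i (j + 1) t : E) (G.h i (j + 1)) (G.h i j)]
  · refine mem_trans _ _ (fun t => ball_subset_ball (by linarith) (G.hc i j t)) fun t => ?_
    have h1 := G.hb (i + 1) j t
    have h2 := G.h2 i j
    rw [mem_ball] at h1 ⊢
    linarith [dist_triangle (G.b (i + 1) j t : E) (G.h (i + 1) j) (G.h i j)]

theorem row_rel (hR : RelP K y₀ R) (i j : ℕ) (g : Hom K y₀ (G.p i 0)) :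
    R _ (g.trans ((G.row i j).trans (cl (G.c i j))))
      (g.trans ((cl (G.c i 0)).trans (G.row (i + 1) j))) := by
  induction j with
  | zero =>
    simp only [row, Path.Homotopic.Quotient.refl_trans, Path.Homotopic.Quotient.trans_refl]
    exact hR.refl _ _
  | succ j ih =>
    have h1 := G.square i j (g.trans (G.row i j))
    have h2 := hR.comp _ _ _ _ (cl (G.b (i + 1) j)) ih
    simp only [Path.Homotopic.Quotient.trans_assoc] at h1 h2
    simp only [row, Path.Homotopic.Quotient.trans_assoc]
    exact hR.trans _ _ _ _ h1 h2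

/-- the path of row `i` -/
noncomputable def full (i : ℕ) : Hom K y₀ y :=
  (cl (G.s i)).trans ((G.row i G.N).trans (cl (G.e i)))

theorem full_step (hR : RelP K y₀ R) (i : ℕ) : R _ (G.full i) (G.full (i + 1)) := by
  have hp := G.pos
  have h1 : R _ (((cl (G.s i)).trans (G.row i G.N)).trans (cl (G.e i)))
      (((cl (G.s i)).trans (G.row i G.N)).trans (cl ((G.c i G.N).trans (G.e (i + 1))))) := by
    refine G.good i G.N _ _ _ _ ?_ ?_ _
    · intro t
      rw [G.h4]
      exact ball_subset_ball (by linarith) (G.he i t)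
    · refine mem_trans _ _ (fun t => ball_subset_ball (by linarith) (G.hc i G.N t)) fun t => ?_
      rw [G.h4]
      exact ball_subset_ball (by linarith) (G.he (i + 1) t)
  have h2 := hR.comp _ _ _ _ (cl (G.e (i + 1))) (G.row_rel hR i G.N (cl (G.s i)))
  have h3 : R _ ((Path.Homotopic.Quotient.refl y₀).trans (cl ((G.s i).trans (G.c i 0))))
      ((Path.Homotopic.Quotient.refl y₀).trans (cl (G.s (i + 1)))) := by
    refine G.good i 0 _ _ _ _ ?_ ?_ _
    · refine mem_trans _ _ (fun t => ?_) fun t => ball_subset_ball (by linarith) (G.hc i 0 t)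
      rw [G.h3]
      exact ball_subset_ball (by linarith) (G.hs i t)
    · intro t
      rw [G.h3]
      exact ball_subset_ball (by linarith) (G.hs (i + 1) t)
  have h4 := hR.comp _ _ _ _ ((G.row (i + 1) G.N).trans (cl (G.e (i + 1)))) h3
  simp only [cl, Path.Homotopic.Quotient.mk_trans, Path.Homotopic.Quotient.trans_assoc,
    Path.Homotopic.Quotient.refl_trans] at h1 h2 h4
  unfold full
  exact hR.trans _ _ _ _ h1 (hR.trans _ _ _ _ h2 h4)

theorem full_rel (hR : RelP K y₀ R) (i : ℕ) : R _ (G.full 0) (G.full i) := by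
  induction i with
  | zero => exact hR.refl _ _
  | succ i ih => exact hR.trans _ _ _ _ ih (G.full_step hR i)

/-- a row which is close to a path in the complement -/
theorem full_path (hR : RelP K y₀ R)
    (hPC : ∀ (c : E) (r : ℝ), 0 < r → IsPathConnected (ball c r \ K)) (v : Path y₀ y) (i : ℕ)
    (t : ℕ → I) (h0 : t 0 = 0) (hN : t G.N = 1) (hv : ∀ j, (v (t j) : E) = G.h i j)
    (hvv : ∀ j, ∀ u ∈ uIcc (t j) (t (j + 1)), dist (v u : E) (G.h i j) < G.δ / 2)
    (hp : ∀ j, (G.p i j : E) ∈ ball (G.h i j) (G.δ / 2)) : R _ (cl v) (G.full i) := by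
  have hpos := G.pos
  have hk : ∀ j, ∃ k : Path (v (t j)) (G.p i j), ∀ u, (k u : E) ∈ ball (G.h i j) (G.δ / 2) := by
    intro j
    refine exists_path hPC _ (by linarith) _ _ ?_ (hp j)
    rw [hv j]
    exact mem_ball_self (by linarith)
  choose k hk using hk
  obtain ⟨S, hS⟩ : ∃ S : ∀ j, Hom K y₀ (v (t j)),
      ∀ j, S j = (cl (v.subpath 0 (t j))).cast v.source.symm rfl := ⟨_, fun j => rfl⟩
  have hSj : ∀ j, S (j + 1) = (S j).trans (cl (v.subpath (t j) (t (j + 1)))) := by
    intro j
    rw [hS, hS, cast_trans, subpath_trans]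
  have hsub : ∀ j u, ((v.subpath (t j) (t (j + 1))) u : E) ∈ ball (G.h i j) (G.δ / 2) := by
    intro j u
    have h1 : (v.subpath (t j) (t (j + 1))) u ∈ range (v.subpath (t j) (t (j + 1))) := ⟨u, rfl⟩
    rw [Path.range_subpath] at h1
    obtain ⟨u', hu', h2⟩ := h1
    rw [← h2]
    exact hvv j u' hu'
  have hC : ∀ j, R _ ((S j).trans (cl (k j))) ((cl (G.s i)).trans (G.row i j)) := by
    intro j
    induction j with
    | zero =>
      have h3 : R _ ((Path.Homotopic.Quotient.refl y₀).trans
          (cl (((v.subpath 0 (t 0)).cast v.source.symm rfl).trans (k 0))))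
          ((Path.Homotopic.Quotient.refl y₀).trans (cl (G.s i))) := by
        refine G.good i 0 _ _ _ _ ?_ ?_ _
        · refine mem_trans _ _ (fun u => ?_) fun u => ball_subset_ball (by linarith) (hk 0 u)
          rw [Path.cast_coe, subpath_const v 0 (t 0) h0.symm u, hv 0]
          exact mem_ball_self hpos
        · intro u
          rw [G.h3]
          exact ball_subset_ball (by linarith) (G.hs i u)
      rw [hS]
      simp only [Path.Homotopic.Quotient.refl_trans, cl, Path.Homotopic.Quotient.mk_trans,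
        Path.Homotopic.Quotient.mk_cast] at h3
      simpa only [row, Path.Homotopic.Quotient.trans_refl] using h3
    | succ j ih =>
      have h3 : R _ ((S j).trans (cl ((v.subpath (t j) (t (j + 1))).trans (k (j + 1)))))
          ((S j).trans (cl ((k j).trans (G.b i j)))) := by
        refine G.good i j _ _ _ _ ?_ ?_ _
        · refine mem_trans _ _ (fun u => ball_subset_ball (by linarith) (hsub j u)) fun u => ?_
          have h5 := hk (j + 1) u
          have h6 := G.h1 i j
          rw [mem_ball] at h5 ⊢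
          linarith [dist_triangle (k (j + 1) u : E) (G.h i (j + 1)) (G.h i j)]
        · exact mem_trans _ _ (fun u => ball_subset_ball (by linarith) (hk j u)) fun u =>
            ball_subset_ball (by linarith) (G.hb i j u)
      have h4 := hR.comp _ _ _ _ (cl (G.b i j)) ih
      rw [hSj j]
      simp only [cl, Path.Homotopic.Quotient.mk_trans, Path.Homotopic.Quotient.trans_assoc] at h3 h4 ⊢
      simp only [row]
      exact hR.trans _ _ _ _ h3 h4
  have h1 : R _ ((S G.N).trans (cl ((v.subpath (t G.N) 1).cast rfl v.target.symm)))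
      ((S G.N).trans (cl ((k G.N).trans (G.e i)))) := by
    refine G.good i G.N _ _ _ _ ?_ ?_ _
    · intro u
      rw [Path.cast_coe, subpath_const v (t G.N) 1 hN u, ← hN, hv G.N]
      exact mem_ball_self hpos
    · refine mem_trans _ _ (fun u => ball_subset_ball (by linarith) (hk G.N u)) fun u => ?_
      rw [G.h4]
      exact ball_subset_ball (by linarith) (G.he i u)
  have h2 := hR.comp _ _ _ _ (cl (G.e i)) (hC G.N)
  have h3 : (S G.N).trans (cl ((v.subpath (t G.N) 1).cast rfl v.target.symm)) = cl v := by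
    have e1 : cl ((v.subpath (t G.N) 1).cast rfl v.target.symm)
        = (cl (v.subpath (t G.N) 1)).cast rfl v.target.symm := rfl
    have e2 : cl (v.subpath 0 1) = (cl v).cast v.source v.target := by
      rw [Path.subpath_zero_one]
      rfl
    rw [hS, e1, cast_trans, trans_cast, subpath_trans, e2, Path.Homotopic.Quotient.cast_cast,
      Path.Homotopic.Quotient.cast_cast, Path.Homotopic.Quotient.cast_rfl_rfl]
  rw [h3] at h1
  unfold full
  simp only [cl, Path.Homotopic.Quotient.mk_trans, Path.Homotopic.Quotient.trans_assoc] at h1 h2 ⊢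
  exact hR.trans _ _ _ _ h1 h2

end Grid

end

end Pool.Agent.Helper34.S5
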