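import Pool.Agent.Helper34.BI5.VK1

/-!
# All paths with the same ends are related
-/

set_option autoImplicit false

open Set Metric unitInterval
open scoped Topology

namespace Pool.Agent.Helper34.S5

/-- the grid points -/
noncomputable def tg (N j : ℕ) : I := projIcc (0 : ℝ) 1 zero_le_one ((j : ℝ) / N)

theorem tg_zero (N : ℕ) : tg N 0 = 0 := by
  unfold tg
  rw [Nat.cast_zero, zero_div]
  exact projIcc_left _

theorem tg_self {N : ℕ} (hN : 0 < N) : tg N N = 1 := by
  unfold tg
  rw [div_self (by positivity)]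
  exact projIcc_right _

theorem tg_dist {N : ℕ} (hN : 0 < N) (j : ℕ) : dist (tg N j) (tg N (j + 1)) ≤ 1 / N := by
  have h0 : (0 : ℝ) < N := by exact_mod_cast hN
  have h2 : (j : ℝ) / N - ((j + 1 : ℕ) : ℝ) / N = -(1 / N) := by
    push_cast
    field_simp
    ring
  have h1 : |(tg N j : ℝ) - tg N (j + 1)| ≤ |(j : ℝ) / N - ((j + 1 : ℕ) : ℝ) / N| :=
    abs_projIcc_sub_projIcc zero_le_one
  rw [h2, abs_neg, abs_of_pos (show (0 : ℝ) < 1 / N by positivity)] at h1
  exact h1

section
variable {E : Type} [NormedAddCommGroup E] [NormedSpace ℝ E] {K : Set E}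
  {y₀ : Off K} {R : ∀ y : Off K, Hom K y₀ y → Hom K y₀ y → Prop}

theorem all_rel (hR : RelP K y₀ R)
    (hPC : ∀ (c : E) (r : ℝ), 0 < r → IsPathConnected (ball c r \ K))
    (hG : ∀ p : E, ∃ r > 0, Good K y₀ R (ball p r)) (y : Off K) (w w' : Path y₀ y) :
    R y (cl w) (cl w') := by
  classical
  let H : I × I → E := fun q => (1 - (q.1 : ℝ)) • (w q.2 : E) + (q.1 : ℝ) • (w' q.2 : E)
  have hH : Continuous H := by
    have h1 : Continuous fun q : I × I => (w q.2 : E) :=
      continuous_subtype_val.comp (w.continuous.comp continuous_snd)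
    have h2 : Continuous fun q : I × I => (w' q.2 : E) :=
      continuous_subtype_val.comp (w'.continuous.comp continuous_snd)
    have h3 : Continuous fun q : I × I => (q.1 : ℝ) := continuous_subtype_val.comp continuous_fst
    exact ((continuous_const.sub h3).smul h1).add (h3.smul h2)
  choose r hr hGr using hG
  obtain ⟨δ, hδ, hδ'⟩ := lebesgue_number_lemma_of_metric (s := range H)
    (c := fun p : E => ball p (r p)) (isCompact_range hH) (fun _ => isOpen_ball)
    (fun x _ => mem_iUnion.2 ⟨x, mem_ball_self (hr x)⟩)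
  obtain ⟨η, hη, hη'⟩ := Metric.uniformContinuous_iff.1
    (CompactSpace.uniformContinuous_of_continuous hH) (δ / 8) (by positivity)
  obtain ⟨N, hN⟩ := exists_nat_gt (1 / η)
  have hNpos : 0 < N := by
    have : (0 : ℝ) < N := lt_trans (by positivity) hN
    exact_mod_cast this
  have hNη : 1 / (N : ℝ) < η := by
    have : (0 : ℝ) < N := by exact_mod_cast hNpos
    rw [div_lt_iff₀ this, mul_comm]
    rwa [div_lt_iff₀ hη] at hN
  have hw : ∀ t, H (0, t) = w t := by
    intro t
    show (1 - ((0 : I) : ℝ)) • (w t : E) + ((0 : I) : ℝ) • (w' t : E) = w t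
    simp
  have hw' : ∀ t, H (1, t) = w' t := by
    intro t
    show (1 - ((1 : I) : ℝ)) • (w t : E) + ((1 : I) : ℝ) • (w' t : E) = w' t
    simp
  have h3 : ∀ s, H (s, 0) = y₀ := by
    intro s
    show (1 - (s : ℝ)) • (w 0 : E) + (s : ℝ) • (w' 0 : E) = y₀
    rw [w.source, w'.source, ← add_smul]
    simp
  have h4 : ∀ s, H (s, 1) = y := by
    intro s
    show (1 - (s : ℝ)) • (w 1 : E) + (s : ℝ) • (w' 1 : E) = y
    rw [w.target, w'.target, ← add_smul]
    simp
  let h : ℕ → ℕ → E := fun i j => H (tg N i, tg N j)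
  have hh1 : ∀ i j, dist (h i (j + 1)) (h i j) < δ / 8 := by
    intro i j
    refine hη' (lt_of_le_of_lt ?_ hNη)
    rw [dist_comm, Prod.dist_eq]
    exact max_le (by rw [dist_self]; positivity) (tg_dist hNpos j)
  have hh2 : ∀ i j, dist (h (i + 1) j) (h i j) < δ / 8 := by
    intro i j
    refine hη' (lt_of_le_of_lt ?_ hNη)
    rw [dist_comm, Prod.dist_eq]
    exact max_le (tg_dist hNpos i) (by rw [dist_self]; positivity)
  have hh3 : ∀ i, h i 0 = y₀ := by
    intro i
    show H (_, tg N 0) = y₀
    rw [tg_zero]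
    exact h3 _
  have hh4 : ∀ i, h i N = y := by
    intro i
    show H (_, tg N N) = y
    rw [tg_self hNpos]
    exact h4 _
  have hp : ∀ i j, ∃ p : Off K, (p : E) ∈ ball (h i j) (δ / 8) := fun i j =>
    exists_off hPC _ (by positivity)
  choose p hp using hp
  have hb : ∀ i j, ∃ b : Path (p i j) (p i (j + 1)), ∀ t, (b t : E) ∈ ball (h i j) (δ / 2) := by
    intro i j
    refine exists_path hPC _ (by positivity) _ _ (ball_subset_ball (by linarith) (hp i j)) ?_
    have h5 := hp i (j + 1)
    have h6 := hh1 i j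
    rw [mem_ball] at h5 ⊢
    linarith [dist_triangle (p i (j + 1) : E) (h i (j + 1)) (h i j)]
  choose b hb using hb
  have hc : ∀ i j, ∃ c : Path (p i j) (p (i + 1) j), ∀ t, (c t : E) ∈ ball (h i j) (δ / 2) := by
    intro i j
    refine exists_path hPC _ (by positivity) _ _ (ball_subset_ball (by linarith) (hp i j)) ?_
    have h5 := hp (i + 1) j
    have h6 := hh2 i j
    rw [mem_ball] at h5 ⊢
    linarith [dist_triangle (p (i + 1) j : E) (h (i + 1) j) (h i j)]
  choose c hc using hc
  have hs : ∀ i, ∃ s : Path y₀ (p i 0), ∀ t, (s t : E) ∈ ball (y₀ : E) (δ / 2) := by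
    intro i
    refine exists_path hPC _ (by positivity) _ _ (mem_ball_self (by positivity)) ?_
    have h5 := hp i 0
    rw [hh3] at h5
    exact ball_subset_ball (by linarith) h5
  choose s hs using hs
  have he : ∀ i, ∃ e : Path (p i N) y, ∀ t, (e t : E) ∈ ball (y : E) (δ / 2) := by
    intro i
    refine exists_path hPC _ (by positivity) _ _ ?_ (mem_ball_self (by positivity))
    have h5 := hp i N
    rw [hh4] at h5
    exact ball_subset_ball (by linarith) h5
  choose e he using he
  let G : Grid K y₀ y R :=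
    { δ := δ, N := N, h := h, p := p, b := b, c := c, s := s, e := e, hb := hb, hc := hc,
      hs := hs, he := he, h1 := hh1, h2 := hh2, h3 := hh3, h4 := hh4, pos := hδ,
      good := fun i j => by
        obtain ⟨q, hq⟩ := hδ' (h i j) ⟨_, rfl⟩
        exact (hGr q).mono hq }
  have key : ∀ (v : Path y₀ y) (a : ℕ), (∀ u, (v u : E) = H (tg N a, u)) →
      R _ (cl v) (G.full a) := by
    intro v a hv
    refine G.full_path hR hPC v a (tg N) (tg_zero N) (tg_self hNpos) (fun j => hv _) ?_
      fun j => ball_subset_ball (by show δ / 8 ≤ δ / 2; linarith) (hp a j)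
    intro j u hu
    rw [hv u]
    have h5 : dist (H (tg N a, u)) (H (tg N a, tg N j)) < δ / 8 := by
      refine hη' (lt_of_le_of_lt ?_ hNη)
      rw [Prod.dist_eq]
      refine max_le (by rw [dist_self]; positivity) ?_
      refine le_trans ?_ (tg_dist hNpos j)
      rw [dist_comm (tg N j), Subtype.dist_eq, Subtype.dist_eq, Real.dist_eq, Real.dist_eq]
      have h6 : (u : ℝ) ∈ uIcc (tg N j : ℝ) (tg N (j + 1) : ℝ) := by
        rcases le_total (tg N j) (tg N (j + 1)) with h7 | h7
        · rw [uIcc_of_le h7] at hu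
          rw [uIcc_of_le (show (tg N j : ℝ) ≤ tg N (j + 1) from h7)]
          exact ⟨hu.1, hu.2⟩
        · rw [uIcc_of_ge h7] at hu
          rw [uIcc_of_ge (show (tg N (j + 1) : ℝ) ≤ tg N j from h7)]
          exact ⟨hu.1, hu.2⟩
      exact abs_sub_left_of_mem_uIcc h6
    show dist (H (tg N a, u)) (H (tg N a, tg N j)) < δ / 2
    linarith
  have k0 := key w 0 fun u => by rw [tg_zero, hw]
  have k1 := key w' N fun u => by rw [tg_self hNpos, hw']
  exact hR.trans _ _ _ _ (hR.trans _ _ _ _ k0 (G.full_rel hR N)) (hR.symm _ _ _ k1)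

end

end Pool.Agent.Helper34.S5
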