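import Pool.Agent.Helper34.BI5.VK2

/-!
# Punctured tubes

`Tub K V`: the complement of `K` near `K` is described by `exp`.  Short paths near `K` with the same ends differ by a
power of a meridian.
-/

set_option autoImplicit false

open Set Metric unitInterval
open scoped Topology

namespace Pool.Agent.Helper34.S5

section
variable {E : Type} [TopologicalSpace E] {K : Set E}

/-- linear path -/
noncomputable def lin {W : Type} [NormedAddCommGroup W] [NormedSpace ℝ W] (x y : W) : Path x y where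
  toFun t := (1 - (t : ℝ)) • x + (t : ℝ) • y
  continuous_toFun := by fun_prop
  source' := by simp
  target' := by simp

theorem lin_apply {W : Type} [NormedAddCommGroup W] [NormedSpace ℝ W] (x y : W) (t : I) :
    lin x y t = (1 - (t : ℝ)) • x + (t : ℝ) • y := rfl

theorem lift_trans {W : Type} [TopologicalSpace W] {q : W → E} {x y z : W} {x' y' z' : Off K}
    {a : Path x y} {a' : Path y z} {b : Path x' y'} {b' : Path y' z'}
    (h : ∀ t, q (a t) = (b t : E)) (h' : ∀ t, q (a' t) = (b' t : E)) (t : I) :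
    q ((a.trans a') t) = ((b.trans b') t : E) := by
  rw [Path.trans_apply, Path.trans_apply]
  split_ifs
  · exact h _
  · exact h' _

/-- paths with lifts to a convex set are homotopic -/
theorem lift_hom {W : Type} [NormedAddCommGroup W] [NormedSpace ℝ W] {Z : Set W}
    (hZ : Convex ℝ Z) {q : W → E} (hq : ContinuousOn q Z) (hoff : ∀ z ∈ Z, q z ∉ K)
    {z z' : W} {y y' : Off K} (a a' : Path z z') (b b' : Path y y') (ha : ∀ t, a t ∈ Z)
    (ha' : ∀ t, a' t ∈ Z) (hb : ∀ t, q (a t) = (b t : E)) (hb' : ∀ t, q (a' t) = (b' t : E)) :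
    cl b = cl b' := by
  rw [Path.Homotopic.Quotient.eq]
  have hin : ∀ w : I × I, (1 - (w.1 : ℝ)) • a w.2 + (w.1 : ℝ) • a' w.2 ∈ Z := by
    intro w
    exact hZ (ha _) (ha' _) (by linarith [w.1.2.2]) w.1.2.1 (by ring)
  have hc : Continuous fun w : I × I => q ((1 - (w.1 : ℝ)) • a w.2 + (w.1 : ℝ) • a' w.2) := by
    refine hq.comp_continuous ?_ hin
    fun_prop
  refine ⟨⟨⟨⟨fun w => ⟨q ((1 - (w.1 : ℝ)) • a w.2 + (w.1 : ℝ) • a' w.2), hoff _ (hin w)⟩,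
    hc.subtype_mk _⟩, ?_, ?_⟩, ?_⟩⟩
  · intro t
    apply Subtype.ext
    show q ((1 - ((0 : I) : ℝ)) • a t + ((0 : I) : ℝ) • a' t) = b t
    rw [← hb]
    simp
  · intro t
    apply Subtype.ext
    show q ((1 - ((1 : I) : ℝ)) • a t + ((1 : I) : ℝ) • a' t) = b' t
    rw [← hb']
    simp
  · intro t x hx
    have key : a x = a' x := by
      rcases hx with rfl | hx
      · rw [a.source, a'.source]
      · rw [mem_singleton_iff.1 hx, a.target, a'.target]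
    apply Subtype.ext
    show q ((1 - (t : ℝ)) • a x + (t : ℝ) • a' x) = b x
    rw [← hb, ← key, ← add_smul]
    simp

variable {y₀ : Off K} {R : ∀ y : Off K, Hom K y₀ y → Hom K y₀ y → Prop}

/-- invariance under right multiplication with a loop -/
def Inv (R : ∀ y : Off K, Hom K y₀ y → Hom K y₀ y → Prop) {y : Off K} (m : Hom K y y) : Prop :=
  ∀ g : Hom K y₀ y, R y (g.trans m) g

theorem inv_trans (hR : RelP K y₀ R) {y : Off K} {m m' : Hom K y y} (h : Inv R m)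
    (h' : Inv R m') : Inv R (m.trans m') := by
  intro g
  rw [← Path.Homotopic.Quotient.trans_assoc]
  exact hR.trans _ _ _ _ (h' _) (h _)

theorem inv_symm (hR : RelP K y₀ R) {y : Off K} {m : Hom K y y} (h : Inv R m) :
    Inv R m.symm := by
  intro g
  have h1 := h (g.trans m.symm)
  rw [Path.Homotopic.Quotient.trans_assoc, Path.Homotopic.Quotient.symm_trans,
    Path.Homotopic.Quotient.trans_refl] at h1
  exact hR.symm _ _ _ h1

theorem inv_refl (hR : RelP K y₀ R) (y : Off K) :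
    Inv R (Path.Homotopic.Quotient.refl y) := by
  intro g
  rw [Path.Homotopic.Quotient.trans_refl]
  exact hR.refl _ _

theorem inv_conj (hR : RelP K y₀ R) {y y' : Off K} {m : Hom K y y} {m' : Hom K y' y'}
    (k : Hom K y' y) (h : Inv R m) (hk : k.trans m = m'.trans k) : Inv R m' := by
  intro g
  have h1 := h (g.trans k)
  rw [Path.Homotopic.Quotient.trans_assoc, hk] at h1
  have h2 := hR.comp _ _ _ _ k.symm h1
  simp only [Path.Homotopic.Quotient.trans_assoc, Path.Homotopic.Quotient.trans_symm,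
    Path.Homotopic.Quotient.trans_refl] at h2
  exact h2

end

/-- `2 π i` -/
noncomputable def tpi : ℂ := 2 * Real.pi * Complex.I

/-- a description of the complement of `K` near `K` by the exponential function -/
structure Tub {E : Type} [TopologicalSpace E] (K : Set E) (V : Type) [NormedAddCommGroup V]
    [NormedSpace ℝ V] where
  κ : ℝ
  P : Set V
  Q : ℂ × V → E
  hP : IsPathConnected P
  cont : ContinuousOn Q ({ℓ : ℂ | ℓ.re < κ} ×ˢ P)
  off : ∀ z ∈ {ℓ : ℂ | ℓ.re < κ} ×ˢ P, Q z ∉ K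
  per : ∀ ℓ v, Q (ℓ + tpi, v) = Q (ℓ, v)
  loc : ∀ p ∈ K, ∀ O ∈ 𝓝 p, ∃ U : Set E, IsOpen U ∧ p ∈ U ∧ U ⊆ O ∧ ∃ κ' ≤ κ, ∃ C ⊆ P,
    Convex ℝ C ∧ C.Nonempty ∧ (∀ z ∈ {ℓ : ℂ | ℓ.re < κ'} ×ˢ C, Q z ∈ U) ∧
    ∃ (ζ : E → ℂ) (u : E → V), ContinuousOn ζ (U \ K) ∧ ContinuousOn u (U \ K) ∧
      ∀ x ∈ U \ K, ζ x ≠ 0 ∧ Real.log ‖ζ x‖ < κ' ∧ u x ∈ C ∧
        ∀ ℓ, Complex.exp ℓ = ζ x → Q (ℓ, u x) = x

namespace Tub

variable {E : Type} [TopologicalSpace E] {K : Set E} {V : Type} [NormedAddCommGroup V]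
  [NormedSpace ℝ V] (T : Tub K V)

theorem per_int (n : ℤ) (ℓ : ℂ) (v : V) : T.Q (ℓ + n * tpi, v) = T.Q (ℓ, v) := by
  induction n using Int.induction_on with
  | zero => simp
  | succ i ih =>
    rw [← ih, ← T.per (ℓ + (i : ℤ) * tpi) v]
    congr 2
    push_cast
    ring
  | pred i ih =>
    rw [← ih, ← T.per (ℓ + ((-i - 1 : ℤ) : ℂ) * tpi) v]
    congr 2
    push_cast
    ring

/-- `m` winds `n` times around `K` at `z` -/
def IsMer (z : ℂ × V) (n : ℤ) {y : Off K} (m : Path y y) : Prop :=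
  ∀ t : I, (m t : E) = T.Q (z.1 + ((n * (t : ℝ) : ℝ) : ℂ) * tpi, z.2)

theorem tpi_re (x : ℝ) : ((x : ℂ) * tpi).re = 0 := by
  simp [tpi]

theorem contQ {W : Type} [TopologicalSpace W] {c : W → ℂ} {v : W → V} (hc : Continuous c)
    (hv : Continuous v) (hc' : ∀ w, (c w).re < T.κ) (hv' : ∀ w, v w ∈ T.P) :
    Continuous fun w => T.Q (c w, v w) :=
  T.cont.comp_continuous (hc.prodMk hv) fun w => ⟨hc' w, hv' w⟩

theorem exists_mer {z : ℂ × V} (hz : z ∈ {ℓ : ℂ | ℓ.re < T.κ} ×ˢ T.P) (n : ℤ) {y : Off K}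
    (hy : T.Q z = y) : ∃ m : Path y y, T.IsMer z n m := by
  have hre : ∀ t : I, (z.1 + ((n * (t : ℝ) : ℝ) : ℂ) * tpi).re < T.κ := by
    intro t
    rw [Complex.add_re, tpi_re, add_zero]
    exact hz.1
  have hc : Continuous fun t : I => T.Q (z.1 + ((n * (t : ℝ) : ℝ) : ℂ) * tpi, z.2) := by
    refine T.contQ ?_ continuous_const hre fun _ => hz.2
    fun_prop
  refine ⟨⟨⟨fun t => ⟨T.Q (z.1 + ((n * (t : ℝ) : ℝ) : ℂ) * tpi, z.2), T.off _ ⟨hre t, hz.2⟩⟩,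
    hc.subtype_mk _⟩, ?_, ?_⟩, fun t => rfl⟩
  · apply Subtype.ext
    show T.Q (z.1 + ((n * ((0 : I) : ℝ) : ℝ) : ℂ) * tpi, z.2) = y
    rw [← hy]
    simp
  · apply Subtype.ext
    show T.Q (z.1 + ((n * ((1 : I) : ℝ) : ℝ) : ℂ) * tpi, z.2) = y
    rw [← hy, ← T.per_int n z.1 z.2]
    simp

theorem mer_add {z : ℂ × V} (hz : z ∈ {ℓ : ℂ | ℓ.re < T.κ} ×ˢ T.P) {y : Off K} {n k : ℤ}
    {m m' m'' : Path y y} (h : T.IsMer z n m) (h' : T.IsMer z k m') (h'' : T.IsMer z (n + k) m'') :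
    cl m'' = (cl m).trans (cl m') := by
  rw [← Path.Homotopic.Quotient.mk_trans]
  have hre : ∀ s : ℝ, (z.1 + (s : ℂ) * tpi).re < T.κ := by
    intro s
    rw [Complex.add_re, tpi_re, add_zero]
    exact hz.1
  refine lift_hom (W := ℝ) (Z := univ) convex_univ (q := fun s => T.Q (z.1 + (s : ℂ) * tpi, z.2))
    ?_ (fun s _ => T.off _ ⟨hre s, hz.2⟩) (lin 0 ((n + k : ℤ) : ℝ))
    ((lin 0 (n : ℝ)).trans (lin (n : ℝ) ((n + k : ℤ) : ℝ))) _ _ (fun _ => mem_univ _)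
    (fun _ => mem_univ _) ?_ ?_
  · refine Continuous.continuousOn (T.contQ ?_ continuous_const hre fun _ => hz.2)
    fun_prop
  · intro t
    rw [h'' t, lin_apply]
    simp only [smul_eq_mul, mul_zero, zero_add]
    congr 2
    push_cast
    ring
  · refine lift_trans (q := fun s : ℝ => T.Q (z.1 + (s : ℂ) * tpi, z.2)) ?_ ?_
    · intro t
      rw [h t]
      show T.Q (z.1 + (((lin (0 : ℝ) (n : ℝ)) t : ℝ) : ℂ) * tpi, z.2) = _
      rw [lin_apply]
      simp only [smul_eq_mul, mul_zero, zero_add]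
      congr 2
      push_cast
      ring
    · intro t
      show T.Q (z.1 + (((lin (n : ℝ) ((n + k : ℤ) : ℝ)) t : ℝ) : ℂ) * tpi, z.2) = _
      rw [h' t, lin_apply, ← T.per_int n (z.1 + ((k * (t : ℝ) : ℝ) : ℂ) * tpi) z.2]
      congr 2
      simp only [smul_eq_mul]
      push_cast
      ring

variable {y₀ : Off K} {R : ∀ y : Off K, Hom K y₀ y → Hom K y₀ y → Prop}

theorem inv_mer (hR : RelP K y₀ R) {z : ℂ × V} (hz : z ∈ {ℓ : ℂ | ℓ.re < T.κ} ×ˢ T.P)
    {y : Off K} (hy : T.Q z = y) {m : Path y y} (hm : T.IsMer z 1 m) (h : Inv R (cl m)) (n : ℤ) :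
    ∀ m' : Path y y, T.IsMer z n m' → Inv R (cl m') := by
  induction n using Int.induction_on with
  | zero =>
    intro m' hm'
    have h0 : m' = Path.refl y := by
      ext t
      have := hm' t
      simp only [Int.cast_zero, zero_mul, Complex.ofReal_zero, add_zero] at this
      rw [this]
      exact hy
    rw [h0]
    exact inv_refl hR y
  | succ i ih =>
    intro m' hm'
    obtain ⟨m₁, hm₁⟩ := T.exists_mer hz i hy
    rw [T.mer_add hz hm₁ hm hm']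
    exact inv_trans hR (ih m₁ hm₁) h
  | pred i ih =>
    intro m' hm'
    obtain ⟨m₁, hm₁⟩ := T.exists_mer hz (-i) hy
    have h1 := T.mer_add hz (n := -i - 1) (k := 1) hm' hm (m'' := m₁)
      (by rw [sub_add_cancel]; exact hm₁)
    have h2 : cl m' = (cl m₁).trans (cl m).symm := by
      rw [h1, Path.Homotopic.Quotient.trans_assoc, Path.Homotopic.Quotient.trans_symm,
        Path.Homotopic.Quotient.trans_refl]
    rw [h2]
    exact inv_trans hR (ih m₁ hm₁) (inv_symm hR h)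

theorem inv_mer' (hR : RelP K y₀ R) {z z' : ℂ × V} (hz : z ∈ {ℓ : ℂ | ℓ.re < T.κ} ×ˢ T.P)
    (hz' : z' ∈ {ℓ : ℂ | ℓ.re < T.κ} ×ˢ T.P) {y y' : Off K} (hy : T.Q z = y) (hy' : T.Q z' = y')
    {m : Path y y} {m' : Path y' y'} (hm : T.IsMer z 1 m) (hm' : T.IsMer z' 1 m')
    (h : Inv R (cl m)) : Inv R (cl m') := by
  have hpc : IsPathConnected ({ℓ : ℂ | ℓ.re < T.κ} ×ˢ T.P) := by
    refine IsPathConnected.prod ?_ T.hP
    have hcv : Convex ℝ {ℓ : ℂ | ℓ.re < T.κ} := convex_halfSpace_re_lt T.κ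
    exact hcv.isPathConnected ⟨z.1, hz.1⟩
  obtain ⟨c, hc⟩ := hpc.joinedIn z' hz' z hz
  have hce : ∀ τ : ℝ, c.extend τ ∈ {ℓ : ℂ | ℓ.re < T.κ} ×ˢ T.P := by
    intro τ
    exact hc (projIcc 0 1 zero_le_one τ)
  have hre : ∀ w : ℝ × ℝ, ((c.extend w.1).1 + (w.2 : ℂ) * tpi).re < T.κ := by
    intro w
    rw [Complex.add_re, tpi_re, add_zero]
    exact (hce w.1).1
  have hk : Continuous fun t : I => T.Q (c t) := T.cont.comp_continuous c.continuous hc
  obtain ⟨k, hk⟩ : ∃ k : Path y' y, ∀ t, (k t : E) = T.Q (c t) := by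
    refine ⟨⟨⟨fun t => ⟨T.Q (c t), T.off _ (hc t)⟩, hk.subtype_mk _⟩, ?_, ?_⟩, fun t => rfl⟩
    · exact Subtype.ext (by show T.Q (c 0) = y'; rw [c.source]; exact hy')
    · exact Subtype.ext (by show T.Q (c 1) = y; rw [c.target]; exact hy)
  have hex : ∀ t : I, c.extend (t : ℝ) = c t := fun t => by
    show c (projIcc 0 1 zero_le_one (t : ℝ)) = c t
    rw [projIcc_val]
  have he0 : c.extend 0 = z' := by
    have := hex 0
    rwa [c.source] at this
  have he1 : c.extend 1 = z := by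
    have := hex 1
    rwa [c.target] at this
  let q : ℝ × ℝ → E := fun w => T.Q ((c.extend w.1).1 + (w.2 : ℂ) * tpi, (c.extend w.1).2)
  refine inv_conj hR (cl k) h ?_
  rw [← Path.Homotopic.Quotient.mk_trans, ← Path.Homotopic.Quotient.mk_trans]
  have hq : Continuous q := by
    refine T.contQ ?_ ?_ hre fun w => (hce w.1).2
    · fun_prop
    · fun_prop
  refine lift_hom (W := ℝ × ℝ) (Z := univ) convex_univ (q := q)
    hq.continuousOn (fun w _ => T.off _ ⟨hre w, (hce w.1).2⟩)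
    ((lin ((0 : ℝ), (0 : ℝ)) (1, 0)).trans (lin ((1 : ℝ), (0 : ℝ)) (1, 1)))
    ((lin ((0 : ℝ), (0 : ℝ)) (0, 1)).trans (lin ((0 : ℝ), (1 : ℝ)) (1, 1))) _ _
    (fun _ => mem_univ _) (fun _ => mem_univ _) ?_ ?_
  · refine lift_trans (q := q) ?_ ?_
    · intro t
      rw [hk t, lin_apply]
      simp [q, hex]
    · intro t
      rw [hm t, lin_apply]
      simp [q, he1]
  · refine lift_trans (q := q) ?_ ?_
    · intro t
      rw [hm' t, lin_apply]
      simp [q, he0]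
    · intro t
      rw [hk t, lin_apply]
      simp [q, hex, T.per]

/-- lifting to the logarithm -/
theorem exists_log (c : C(I, ℂ)) (hc : ∀ t, c t ≠ 0) (ℓ₀ : ℂ) (h : Complex.exp ℓ₀ = c 0) :
    ∃ ℓ : C(I, ℂ), (∀ t, Complex.exp (ℓ t) = c t) ∧ ℓ 0 = ℓ₀ := by
  let c' : C(I, {z : ℂ // z ≠ 0}) := ⟨fun t => ⟨c t, hc t⟩, c.continuous.subtype_mk _⟩
  obtain ⟨Γ, h1, h2⟩ := Complex.isCoveringMap_exp.exists_path_lifts c' ℓ₀
    (Subtype.ext (by show c 0 = Complex.exp ℓ₀; exact h.symm))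
  refine ⟨Γ, fun t => ?_, h2⟩
  have h3 := congrFun h1 t
  exact congrArg Subtype.val h3

theorem re_log {ℓ w : ℂ} (h : Complex.exp ℓ = w) : ℓ.re = Real.log ‖w‖ := by
  rw [← h, Complex.norm_exp, Real.log_exp]

/-- near a point of `K` -/
theorem good (hR : RelP K y₀ R) {z : ℂ × V} (hz : z ∈ {ℓ : ℂ | ℓ.re < T.κ} ×ˢ T.P)
    {y₁ : Off K} (hy₁ : T.Q z = y₁) {m : Path y₁ y₁} (hm : T.IsMer z 1 m) (h : Inv R (cl m))
    {p : E} (hp : p ∈ K) : ∃ U : Set E, IsOpen U ∧ p ∈ U ∧ Good K y₀ R U := by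
  obtain ⟨U, hU, hpU, -, κ', hκ', C, hC, hCc, -, hQU, ζ, u, hζ, hu, hx⟩ :=
    T.loc p hp univ Filter.univ_mem
  refine ⟨U, hU, hpU, ?_⟩
  intro y y' b b' hb hb' g
  have hcb : ∀ v : Path y y', (∀ t, (v t : E) ∈ U) → Continuous (fun t => ζ (v t)) ∧
      Continuous (fun t => u (v t)) := by
    intro v hv
    have hvc : Continuous fun t => (v t : E) := continuous_subtype_val.comp v.continuous
    exact ⟨hζ.comp_continuous hvc fun t => ⟨hv t, (v t).2⟩,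
      hu.comp_continuous hvc fun t => ⟨hv t, (v t).2⟩⟩
  have hyU : (y : E) ∈ U \ K := by
    have := hb 0
    rw [b.source] at this
    exact ⟨this, y.2⟩
  have hyU' : (y' : E) ∈ U \ K := by
    have := hb 1
    rw [b.target] at this
    exact ⟨this, y'.2⟩
  have hx0 := hx _ hyU
  obtain ⟨ℓ, hℓ, hℓ0⟩ := exists_log ⟨fun t => ζ (b t), (hcb b hb).1⟩
    (fun t => (hx _ ⟨hb t, (b t).2⟩).1) (Complex.log (ζ y)) (by
      show _ = ζ (b 0)
      rw [b.source, Complex.exp_log hx0.1])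
  obtain ⟨ℓ', hℓ', hℓ0'⟩ := exists_log ⟨fun t => ζ (b' t), (hcb b' hb').1⟩
    (fun t => (hx _ ⟨hb' t, (b' t).2⟩).1) (Complex.log (ζ y)) (by
      show _ = ζ (b' 0)
      rw [b'.source, Complex.exp_log hx0.1])
  have e1 : Complex.exp (ℓ 1) = ζ y' := by
    rw [hℓ 1]
    show ζ (b 1) = ζ y'
    rw [b.target]
  have e1' : Complex.exp (ℓ' 1) = ζ y' := by
    rw [hℓ' 1]
    show ζ (b' 1) = ζ y'
    rw [b'.target]
  obtain ⟨n, hn⟩ := Complex.exp_eq_exp_iff_exists_int.1 (e1'.trans e1.symm)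
  set z₁ : ℂ × V := (ℓ 1, u y') with hz₁
  have hz₁m : z₁ ∈ {ℓ : ℂ | ℓ.re < κ'} ×ˢ C := by
    refine ⟨?_, (hx _ hyU').2.2.1⟩
    show (ℓ 1).re < κ'
    rw [re_log e1]
    exact (hx _ hyU').2.1
  have hsub : {ℓ : ℂ | ℓ.re < κ'} ×ˢ C ⊆ {ℓ : ℂ | ℓ.re < T.κ} ×ˢ T.P :=
    fun w hw => ⟨lt_of_lt_of_le hw.1 hκ', hC hw.2⟩
  have hQz₁ : T.Q z₁ = y' := (hx _ hyU').2.2.2 _ e1
  obtain ⟨mn, hmn⟩ := T.exists_mer (hsub hz₁m) n hQz₁
  obtain ⟨m₁, hm₁⟩ := T.exists_mer (hsub hz₁m) 1 hQz₁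
  have hinv : Inv R (cl mn) := T.inv_mer hR (hsub hz₁m) hQz₁ hm₁
    (T.inv_mer' hR hz (hsub hz₁m) hy₁ hQz₁ hm hm₁ h) n mn hmn
  have hcv : Convex ℝ ({ℓ : ℂ | ℓ.re < κ'} ×ˢ C) := (convex_halfSpace_re_lt κ').prod hCc
  -- the lifts
  let a : Path ((ℓ 0, u y) : ℂ × V) z₁ :=
    { toFun := fun t => (ℓ t, u (b t))
      continuous_toFun := ℓ.continuous.prodMk (hcb b hb).2
      source' := by rw [b.source]
      target' := by rw [b.target] }
  let a' : Path ((ℓ 0, u y) : ℂ × V) (z₁.1 + n * tpi, z₁.2) :=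
    { toFun := fun t => (ℓ' t, u (b' t))
      continuous_toFun := ℓ'.continuous.prodMk (hcb b' hb').2
      source' := by rw [b'.source, hℓ0, hℓ0']
      target' := by
        rw [b'.target, hn]
        rfl }
  have ha : ∀ t, a t ∈ {ℓ : ℂ | ℓ.re < κ'} ×ˢ C := by
    intro t
    have h1 := hx _ ⟨hb t, (b t).2⟩
    refine ⟨?_, h1.2.2.1⟩
    show (ℓ t).re < κ'
    rw [re_log (hℓ t)]
    exact h1.2.1
  have ha' : ∀ t, a' t ∈ {ℓ : ℂ | ℓ.re < κ'} ×ˢ C := by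
    intro t
    have h1 := hx _ ⟨hb' t, (b' t).2⟩
    refine ⟨?_, h1.2.2.1⟩
    show (ℓ' t).re < κ'
    rw [re_log (hℓ' t)]
    exact h1.2.1
  have hlin : ∀ t, lin z₁ (z₁.1 + n * tpi, z₁.2) t
      = (z₁.1 + ((n * (t : ℝ) : ℝ) : ℂ) * tpi, z₁.2) := by
    intro t
    rw [lin_apply]
    refine Prod.ext ?_ ?_
    · show (1 - (t : ℝ)) • z₁.1 + (t : ℝ) • (z₁.1 + n * tpi) = _
      rw [Complex.real_smul, Complex.real_smul]
      push_cast
      ring
    · show (1 - (t : ℝ)) • z₁.2 + (t : ℝ) • z₁.2 = z₁.2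
      rw [← add_smul]
      simp
  have key : cl (b.trans mn) = cl b' := by
    refine lift_hom hcv (T.cont.mono hsub) (fun w hw => T.off _ (hsub hw))
      (a.trans (lin z₁ (z₁.1 + n * tpi, z₁.2))) a' _ _ ?_ ha' (lift_trans ?_ ?_) ?_
    · intro t
      rw [Path.trans_apply]
      split_ifs
      · exact ha _
      · rw [hlin]
        refine ⟨?_, hz₁m.2⟩
        show (z₁.1 + _).re < κ'
        rw [Complex.add_re, tpi_re, add_zero]
        exact hz₁m.1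
    · intro t
      exact (hx _ ⟨hb t, (b t).2⟩).2.2.2 _ (hℓ t)
    · intro t
      rw [hlin, hmn t]
    · intro t
      exact (hx _ ⟨hb' t, (b' t).2⟩).2.2.2 _ (hℓ' t)
  rw [← key]
  have h5 := hinv (g.trans (cl b))
  rw [Path.Homotopic.Quotient.trans_assoc] at h5
  exact hR.symm _ _ _ h5

include T in
/-- near a point of `K` the complement is path connected -/
theorem pc {p : E} (hp : p ∈ K) {O : Set E} (hO : O ∈ 𝓝 p) :
    ∃ U : Set E, IsOpen U ∧ p ∈ U ∧ U ⊆ O ∧ IsPathConnected (U \ K) := by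
  obtain ⟨U, hU, hpU, hUO, κ', hκ', C, hC, hCc, hCn, hQU, ζ, u, hζ, hu, hx⟩ := T.loc p hp O hO
  refine ⟨U, hU, hpU, hUO, ?_⟩
  have hsub : {ℓ : ℂ | ℓ.re < κ'} ×ˢ C ⊆ {ℓ : ℂ | ℓ.re < T.κ} ×ˢ T.P :=
    fun w hw => ⟨lt_of_lt_of_le hw.1 hκ', hC hw.2⟩
  have h1 : U \ K = T.Q '' ({ℓ : ℂ | ℓ.re < κ'} ×ˢ C) := by
    ext x
    constructor
    · intro h
      have h2 := hx x h
      refine ⟨(Complex.log (ζ x), u x), ⟨?_, h2.2.2.1⟩, h2.2.2.2 _ (Complex.exp_log h2.1)⟩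
      show (Complex.log (ζ x)).re < κ'
      rw [Complex.log_re]
      exact h2.2.1
    · rintro ⟨w, hw, rfl⟩
      exact ⟨hQU w hw, T.off _ (hsub hw)⟩
  rw [h1]
  have hcv : Convex ℝ ({ℓ : ℂ | ℓ.re < κ'} ×ˢ C) := (convex_halfSpace_re_lt κ').prod hCc
  have hne : ({ℓ : ℂ | ℓ.re < κ'} ×ˢ C).Nonempty := by
    obtain ⟨v, hv⟩ := hCn
    refine ⟨(((κ' - 1 : ℝ) : ℂ), v), ?_, hv⟩
    show (((κ' - 1 : ℝ) : ℂ)).re < κ'
    rw [Complex.ofReal_re]
    linarith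
  exact (hcv.isPathConnected hne).image' (T.cont.mono hsub)

end Tub

end Pool.Agent.Helper34.S5
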